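import Mathlib
import Pool.Agent.H202.ZR.Poly

/-!
# A polynomial which detects proportional eigenvalues
-/

set_option autoImplicit false

open Matrix Finset

namespace Pool.Agent.H202.EF

open Pool.Agent.H202.ZR

variable {n : ℕ}

/-- the matrix `q A ⊗ 1 - 1 ⊗ B` -/
def KM (q : ℝ) (A B : Matrix (Fin n) (Fin n) ℝ) : Matrix (Fin n × Fin n) (Fin n × Fin n) ℝ :=
  fun p r => q * A p.1 r.1 * (if p.2 = r.2 then 1 else 0) -
    (if p.1 = r.1 then 1 else 0) * B p.2 r.2

/-- its determinant -/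
noncomputable def KP (q : ℝ) (A B : Matrix (Fin n) (Fin n) ℝ) : ℝ := (KM q A B).det

lemma KM_mulVec (q : ℝ) (A B : Matrix (Fin n) (Fin n) ℝ) (x : Fin n × Fin n → ℝ)
    (p : Fin n × Fin n) :
    (KM q A B *ᵥ x) p = q * ∑ j, A p.1 j * x (j, p.2) - ∑ l, B p.2 l * x (p.1, l) := by
  unfold KM Matrix.mulVec dotProduct
  rw [Fintype.sum_prod_type]
  simp only [sub_mul, Finset.sum_sub_distrib]
  congr 1
  · rw [Finset.mul_sum]
    refine Finset.sum_congr rfl fun j _ => ?_
    rw [Finset.sum_eq_single p.2]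
    · rw [if_pos rfl]
      ring
    · intro l _ hl
      rw [if_neg (Ne.symm hl)]
      ring
    · intro h
      exact absurd (Finset.mem_univ _) h
  · rw [Finset.sum_eq_single p.1]
    · refine Finset.sum_congr rfl fun l _ => ?_
      rw [if_pos rfl]
      ring
    · intro j _ hj
      refine Finset.sum_eq_zero fun l _ => ?_
      rw [if_neg (Ne.symm hj)]
      ring
    · intro h
      exact absurd (Finset.mem_univ _) h

lemma KP_zero_of_eigen {q lam mu : ℝ} {A B : Matrix (Fin n) (Fin n) ℝ} (hmu : mu = q * lam)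
    (hA : (A - lam • 1).det = 0) (hB : (B - mu • 1).det = 0) : KP q A B = 0 := by
  obtain ⟨u, hu, hu2⟩ := Matrix.exists_mulVec_eq_zero_iff.2 hA
  obtain ⟨v, hv, hv2⟩ := Matrix.exists_mulVec_eq_zero_iff.2 hB
  have hu3 : ∀ i, ∑ j, A i j * u j = lam * u i := by
    intro i
    have h1 := congrFun hu2 i
    rw [Matrix.sub_mulVec, Pi.sub_apply, Matrix.smul_mulVec, Matrix.one_mulVec, Pi.smul_apply,
      smul_eq_mul, Pi.zero_apply, sub_eq_zero] at h1
    exact h1
  have hv3 : ∀ i, ∑ j, B i j * v j = mu * v i := by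
    intro i
    have h1 := congrFun hv2 i
    rw [Matrix.sub_mulVec, Pi.sub_apply, Matrix.smul_mulVec, Matrix.one_mulVec, Pi.smul_apply,
      smul_eq_mul, Pi.zero_apply, sub_eq_zero] at h1
    exact h1
  refine Matrix.exists_mulVec_eq_zero_iff.1 ⟨fun p => u p.1 * v p.2, ?_, ?_⟩
  · obtain ⟨i, hi⟩ := Function.ne_iff.1 hu
    obtain ⟨k, hk⟩ := Function.ne_iff.1 hv
    intro h
    have h1 := congrFun h (i, k)
    exact (mul_ne_zero hi hk) h1
  · funext p
    rw [KM_mulVec, Pi.zero_apply]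
    have h1 : ∑ j, A p.1 j * (u j * v p.2) = (lam * u p.1) * v p.2 := by
      rw [← hu3, Finset.sum_mul]
      exact Finset.sum_congr rfl fun j _ => by ring
    have h2 : ∑ l, B p.2 l * (u p.1 * v l) = u p.1 * (mu * v p.2) := by
      rw [← hv3, Finset.mul_sum]
      exact Finset.sum_congr rfl fun j _ => by ring
    rw [h1, h2, hmu]
    ring

lemma PF_mul_right (W : Matrix (Fin n) (Fin n) ℝ) (i j : Fin n) :
    (fun Y : Matrix (Fin n) (Fin n) ℝ => (Y * W) i j) ∈ PF n := by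
  have h1 : (fun Y : Matrix (Fin n) (Fin n) ℝ => (Y * W) i j) = fun Y => ∑ k, Y i k * W k j := by
    funext Y
    rw [Matrix.mul_apply]
  rw [h1]
  exact PF_sum _ fun k _ => PF_mul (coord_mem _ _) (const_mem _)

lemma KP_mem (q : ℝ) (C D : Matrix (Fin n) (Fin n) ℝ) :
    (fun Y : Matrix (Fin n) (Fin n) ℝ => KP q (Y * C) (Y * D)) ∈ PF n := by
  have h1 : (fun Y : Matrix (Fin n) (Fin n) ℝ => KP q (Y * C) (Y * D)) =
      fun Y => ∑ σ : Equiv.Perm (Fin n × Fin n), ((Equiv.Perm.sign σ : ℤ) : ℝ) *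
        ∏ p, KM q (Y * C) (Y * D) (σ p) p := by
    funext Y
    unfold KP
    rw [Matrix.det_apply']
  rw [h1]
  refine PF_sum _ fun σ _ => PF_mul (const_mem _) (PF_prod _ fun p _ => ?_)
  unfold KM
  exact (PF n).sub_mem (PF_mul (PF_mul (const_mem q) (PF_mul_right C (σ p).1 p.1))
    (const_mem (if (σ p).2 = p.2 then 1 else 0)))
    (PF_mul (const_mem (if (σ p).1 = p.1 then 1 else 0)) (PF_mul_right D (σ p).2 p.2))

/-- a unipotent second matrix -/
lemma det_of_KP {q : ℝ} {A N : Matrix (Fin n) (Fin n) ℝ} (hN : N * N = 0)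
    (h : KP q A (1 + N) = 0) : (q • A - 1).det = 0 := by
  by_contra hne
  obtain ⟨x, hx, hx2⟩ := Matrix.exists_mulVec_eq_zero_iff.2 h
  set X : Matrix (Fin n) (Fin n) ℝ := fun i k => x (i, k) with hX
  have h1 : (q • A - 1) * X = X * Nᵀ := by
    ext i k
    have h2 := congrFun hx2 (i, k)
    rw [KM_mulVec, Pi.zero_apply] at h2
    simp only [Matrix.add_apply, add_mul, Finset.sum_add_distrib] at h2
    have h3 : ∑ l, (1 : Matrix (Fin n) (Fin n) ℝ) k l * x (i, l) = X i k := by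
      rw [Finset.sum_eq_single k]
      · rw [Matrix.one_apply_eq, one_mul]
      · intro l _ hl
        rw [Matrix.one_apply_ne (Ne.symm hl), zero_mul]
      · intro h
        exact absurd (Finset.mem_univ _) h
    rw [h3] at h2
    rw [Matrix.sub_mul, Matrix.one_mul, Matrix.sub_apply, Matrix.smul_mul, Matrix.smul_apply,
      smul_eq_mul, Matrix.mul_apply, Matrix.mul_apply]
    have h4 : ∑ l, X i l * Nᵀ l k = ∑ l, N k l * x (i, l) := by
      refine Finset.sum_congr rfl fun l _ => ?_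
      rw [Matrix.transpose_apply, mul_comm]
    rw [h4]
    have h5 : ∑ j, A i j * X j k = ∑ j, A i j * x (j, k) := rfl
    rw [h5]
    linarith
  have h2 : (q • A - 1) * ((q • A - 1) * X) = 0 := by
    rw [h1, ← Matrix.mul_assoc, h1, Matrix.mul_assoc, ← Matrix.transpose_mul, hN,
      Matrix.transpose_zero, Matrix.mul_zero]
  have hu : IsUnit (q • A - 1).det := isUnit_iff_ne_zero.2 hne
  have h3 : ∀ Z : Matrix (Fin n) (Fin n) ℝ, (q • A - 1) * Z = 0 → Z = 0 := by
    intro Z hZ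
    have h4 : (q • A - 1)⁻¹ * ((q • A - 1) * Z) = (q • A - 1)⁻¹ * 0 := by rw [hZ]
    rw [← Matrix.mul_assoc, Matrix.nonsing_inv_mul _ hu, Matrix.one_mul, Matrix.mul_zero] at h4
    exact h4
  have h4 : X = 0 := h3 _ (h3 _ h2)
  apply hx
  funext p
  have h5 := congrFun (congrFun h4 p.1) p.2
  exact h5

/-- a vector as a matrix -/
def toM (x : Fin n × Fin n → ℝ) : Matrix (Fin n) (Fin n) ℝ := fun i k => x (i, k)

lemma KP_zero_iff (q : ℝ) (A B : Matrix (Fin n) (Fin n) ℝ) :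
    KP q A B = 0 ↔ ∃ X : Matrix (Fin n) (Fin n) ℝ, X ≠ 0 ∧ q • (A * X) = X * Bᵀ := by
  have key : ∀ x : Fin n × Fin n → ℝ, (KM q A B *ᵥ x = 0 ↔
      q • (A * toM x) = toM x * Bᵀ) := by
    intro x
    have h1 : ∀ i k, (q • (A * toM x)) i k - (toM x * Bᵀ) i k = (KM q A B *ᵥ x) (i, k) := by
      intro i k
      rw [KM_mulVec, Matrix.smul_apply, smul_eq_mul, Matrix.mul_apply, Matrix.mul_apply]
      congr 1
      refine Finset.sum_congr rfl fun l _ => ?_
      rw [Matrix.transpose_apply, mul_comm]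
      rfl
    constructor
    · intro h
      ext i k
      rw [← sub_eq_zero, h1, h]
      rfl
    · intro h
      funext p
      rw [← h1 p.1 p.2, h, sub_self]
      rfl
  constructor
  · intro h
    obtain ⟨x, hx, hx2⟩ := Matrix.exists_mulVec_eq_zero_iff.2 h
    refine ⟨toM x, fun h0 => hx ?_, (key x).1 hx2⟩
    funext p
    exact congrFun (congrFun h0 p.1) p.2
  · rintro ⟨X, hX, hX2⟩
    refine Matrix.exists_mulVec_eq_zero_iff.1 ⟨fun p => X p.1 p.2, fun h0 => hX ?_,
      (key _).2 hX2⟩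
    ext i k
    exact congrFun h0 (i, k)

/-- invariance under conjugation -/
lemma KP_conj {q : ℝ} {A B P Q : Matrix (Fin n) (Fin n) ℝ} (hQP : Q * P = 1)
    (h : KP q A B = 0) : KP q (P * A * Q) (P * B * Q) = 0 := by
  rw [KP_zero_iff] at h ⊢
  obtain ⟨X, hX, hX2⟩ := h
  refine ⟨P * X * Pᵀ, fun h0 => hX ?_, ?_⟩
  · have h1 : Pᵀ * Qᵀ = 1 := by rw [← Matrix.transpose_mul, hQP, Matrix.transpose_one]
    calc X = (Q * P) * X * (Pᵀ * Qᵀ) := by rw [hQP, h1, Matrix.one_mul, Matrix.mul_one]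
      _ = Q * (P * X * Pᵀ) * Qᵀ := by simp only [Matrix.mul_assoc]
      _ = 0 := by rw [h0, Matrix.mul_zero, Matrix.zero_mul]
  · have h1 : Pᵀ * Qᵀ = 1 := by rw [← Matrix.transpose_mul, hQP, Matrix.transpose_one]
    calc q • (P * A * Q * (P * X * Pᵀ)) = q • (P * A * (Q * P) * X * Pᵀ) := by
          simp only [Matrix.mul_assoc]
      _ = P * (q • (A * X)) * Pᵀ := by
          rw [hQP, Matrix.mul_one, Matrix.mul_smul, Matrix.smul_mul, Matrix.mul_assoc P A X]
      _ = P * X * Bᵀ * Pᵀ := by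
          rw [hX2]
          simp only [Matrix.mul_assoc]
      _ = P * X * (Pᵀ * Qᵀ) * Bᵀ * Pᵀ := by rw [h1, Matrix.mul_one]
      _ = P * X * Pᵀ * (P * B * Q)ᵀ := by
          rw [Matrix.transpose_mul, Matrix.transpose_mul]
          simp only [Matrix.mul_assoc]

end Pool.Agent.H202.EF
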