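import Mathlib
import Pool.Agent.H202.ZR.Stab
import Pool.Agent.H202.EF.Kron

/-!
# Two matrices whose spectra are never proportional
-/

set_option autoImplicit false

open Matrix Finset

namespace Pool.Agent.H202.EF

open Pool.Agent.H202.ZR

variable {n : ℕ}

/-- strict diagonal dominance off one row -/
lemma minor_ne {A : Matrix (Fin n) (Fin n) ℝ} {a : Fin n}
    (h : ∀ k, k ≠ a → ∑ j ∈ Finset.univ.erase k, |A k j| < |A k k|) : A.adjugate a a ≠ 0 := by
  classical
  rw [Matrix.adjugate_apply]
  refine det_ne_zero_of_sum_row_lt_diag fun k => ?_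
  by_cases hk : k = a
  · subst hk
    rw [Matrix.updateRow_self, Pi.single_eq_same, norm_one]
    have h1 : ∑ j ∈ Finset.univ.erase k, ‖(Pi.single k (1 : ℝ) : Fin n → ℝ) j‖ = 0 := by
      refine Finset.sum_eq_zero fun j hj => ?_
      rw [Pi.single_eq_of_ne (Finset.ne_of_mem_erase hj), norm_zero]
    rw [h1]
    exact one_pos
  · rw [Matrix.updateRow_ne hk]
    simp only [Real.norm_eq_abs]
    exact h k hk

/-- `1 + N` with `N = t E_ab` -/
lemma det_add_single (A : Matrix (Fin n) (Fin n) ℝ) (a b : Fin n) :
    (A + Matrix.single a b 1).det = A.det + A.adjugate b a := by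
  classical
  have h1 : A + Matrix.single a b 1 = A.updateRow a (A a + Pi.single b 1) := by
    ext i j
    by_cases hi : i = a
    · subst hi
      rw [Matrix.updateRow_self, Matrix.add_apply, Pi.add_apply, Matrix.single_apply,
        Pi.single_apply]
      congr 1
      by_cases hj : j = b
      · subst hj
        simp
      · simp [hj, Ne.symm hj]
    · rw [Matrix.updateRow_ne hi, Matrix.add_apply, Matrix.single_apply, if_neg, add_zero]
      rintro ⟨h, -⟩
      exact hi h.symm
  rw [h1, Matrix.det_updateRow_add, Matrix.updateRow_eq_self, Matrix.adjugate_apply]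

/-- the square zero matrix `(e_a + e_b) (e_a - e_b)^T` -/
lemma det_add_pair (A : Matrix (Fin n) (Fin n) ℝ) {a b : Fin n} (hab : a ≠ b) :
    (A + (Matrix.single a a 1 - Matrix.single a b 1 + Matrix.single b a 1 -
      Matrix.single b b 1)).det =
      A.det + A.adjugate a a - A.adjugate b a + A.adjugate a b - A.adjugate b b := by
  classical
  set w : Fin n → ℝ := Pi.single a 1 + (-1 : ℝ) • Pi.single b 1 with hw
  have h1 : A + (Matrix.single a a 1 - Matrix.single a b 1 + Matrix.single b a 1 -
      Matrix.single b b 1) = (A.updateRow a (A a + w)).updateRow b (A b + w) := by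
    ext i j
    simp only [Matrix.add_apply, Matrix.sub_apply, Matrix.single_apply, Matrix.updateRow_apply,
      hw, Pi.add_apply, Pi.smul_apply, smul_eq_mul, Pi.single_apply]
    by_cases hi : i = a
    · subst hi
      by_cases hj : j = i
      · subst hj
        simp [hab, Ne.symm hab]
      · by_cases hj' : j = b
        · subst hj'
          simp [hab, Ne.symm hab]
        · simp [hab, Ne.symm hab, hj, hj', Ne.symm hj, Ne.symm hj']
    · by_cases hi' : i = b
      · subst hi'
        by_cases hj : j = a
        · subst hj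
          simp [hab, Ne.symm hab]
        · by_cases hj' : j = i
          · subst hj'
            simp [hab, Ne.symm hab]
          · simp [hab, Ne.symm hab, hj, hj', Ne.symm hj, Ne.symm hj']
      · simp [hi, hi', Ne.symm hi, Ne.symm hi']
  have hdet : ∀ (B : Matrix (Fin n) (Fin n) ℝ) (c : Fin n),
      (B.updateRow c w).det = (B.updateRow c (Pi.single a 1)).det -
        (B.updateRow c (Pi.single b 1)).det := by
    intro B c
    rw [hw, Matrix.det_updateRow_add, Matrix.det_updateRow_smul]
    ring
  rw [h1, Matrix.det_updateRow_add]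
  have h2 : (A.updateRow a (A a + w)).updateRow b (A b) = A.updateRow a (A a + w) := by
    have h3 : (A.updateRow a (A a + w)) b = A b := by rw [Matrix.updateRow_ne (Ne.symm hab)]
    rw [← h3, Matrix.updateRow_eq_self]
  have h4 : ((A.updateRow a (A a + w)).updateRow b w).det =
      (A.updateRow b w).det := by
    rw [Matrix.updateRow_comm A hab, Matrix.det_updateRow_add]
    have h5 : (A.updateRow b w).updateRow a (A a) = A.updateRow b w := by
      have h6 : (A.updateRow b w) a = A a := by rw [Matrix.updateRow_ne hab]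
      rw [← h6, Matrix.updateRow_eq_self]
    have h7 : ((A.updateRow b w).updateRow a w).det = 0 := by
      refine Matrix.det_zero_of_row_eq hab ?_
      rw [Matrix.updateRow_self, Matrix.updateRow_ne (Ne.symm hab), Matrix.updateRow_self]
    rw [h5, h7, add_zero]
  rw [h2, h4, Matrix.det_updateRow_add, Matrix.updateRow_eq_self, hdet, hdet,
    ← Matrix.adjugate_apply, ← Matrix.adjugate_apply, ← Matrix.adjugate_apply,
    ← Matrix.adjugate_apply]
  ring

/-- **There is a block matrix of determinant one whose product with `Z` has no eigenvalue in the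
`q`-multiple of its spectrum.** -/
theorem exists_good {R : Fin n → Fin n → Prop} (hR : Equivalence R)
    (hcls : ∀ i, ∃ j, j ≠ i ∧ R i j) {Z : Matrix (Fin n) (Fin n) ℝ} (hZ1 : Z.det = 1)
    (hZB : Bl R Z) {D : Fin n → ℝ} (hD : ∀ i, 0 < D i) {E : Matrix (Fin n) (Fin n) ℝ}
    (hE : ∀ i j, |E i j| ≤ 1 / (8 * (n + 1)))
    (hZE : ∀ i j, Z i j = D i * ((1 : Matrix (Fin n) (Fin n) ℝ) i j + E i j))
    (hsep : ∀ i j, i ≠ j → 4 * D i ≤ D j ∨ 4 * D j ≤ D i) {q : ℝ} (hq : q ≠ 0) :
    ∃ X : Matrix (Fin n) (Fin n) ℝ, X.det = 1 ∧ Bl R X ∧ KP q X (X * Z) ≠ 0 := by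
  classical
  by_contra hcon
  push Not at hcon
  have hZu : IsUnit Z.det := by rw [hZ1]; exact isUnit_one
  set A : Matrix (Fin n) (Fin n) ℝ := 1 - q⁻¹ • Z with hA
  -- the determinant of `A + N`
  have key : ∀ N : Matrix (Fin n) (Fin n) ℝ, N * N = 0 → (1 + N).det = 1 → Bl R N →
      (A + N).det = 0 := by
    intro N hN hN1 hNB
    have h1 := hcon ((1 + N) * Z⁻¹) (by
      rw [Matrix.det_mul, hN1, one_mul, Matrix.det_nonsing_inv, hZ1, Ring.inverse_one]) (by
      have h2 := Bl_inv hR hZu hZB
      intro i j hij
      rw [Matrix.mul_apply]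
      refine Finset.sum_eq_zero fun k _ => ?_
      by_cases hik : R i k
      · rw [h2 k j (fun h => hij (hR.trans hik h)), mul_zero]
      · rw [Matrix.add_apply, hNB i k hik, Matrix.one_apply_ne, add_zero, zero_mul]
        rintro rfl
        exact hik (hR.refl _))
    rw [Matrix.mul_assoc, Matrix.nonsing_inv_mul _ hZu, Matrix.mul_one] at h1
    have h2 := det_of_KP hN h1
    have h3 : A + N = (q⁻¹ • (q • ((1 + N) * Z⁻¹) - 1)) * Z := by
      rw [smul_sub, smul_smul, inv_mul_cancel₀ hq, one_smul, Matrix.sub_mul, Matrix.mul_assoc,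
        Matrix.nonsing_inv_mul _ hZu, Matrix.mul_one, Matrix.smul_mul, Matrix.one_mul, hA]
      abel
    rw [h3, Matrix.det_mul, Matrix.det_smul, h2, mul_zero, zero_mul]
  have hdet : A.det = 0 := by
    have := key 0 (by rw [Matrix.mul_zero]) (by rw [add_zero, Matrix.det_one])
      (fun _ _ _ => rfl)
    rwa [add_zero] at this
  have hoff : ∀ a b, a ≠ b → R a b → A.adjugate b a = 0 := by
    intro a b hab hRab
    have h1 := key (Matrix.single a b 1) (by
      rw [Matrix.single_mul_single_of_ne]
      exact Ne.symm hab) (by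
      exact Matrix.det_transvection_of_ne a b hab 1) (by
      intro i j hij
      rw [Matrix.single_apply, if_neg]
      rintro ⟨rfl, rfl⟩
      exact hij hRab)
    rw [det_add_single, hdet, zero_add] at h1
    exact h1
  have hdiag : ∀ a b, a ≠ b → R a b → A.adjugate a a = A.adjugate b b := by
    intro a b hab hRab
    have h1 := key (Matrix.single a a 1 - Matrix.single a b 1 + Matrix.single b a 1 -
      Matrix.single b b 1) (by
        have e1 : ∀ x y z t : Fin n, y ≠ z →
            Matrix.single x y (1 : ℝ) * Matrix.single z t (1 : ℝ) = 0 :=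
          fun x y z t h => by
            rw [Matrix.single_mul_single_of_ne]
            exact h
        have e2 : ∀ x y t : Fin n, Matrix.single x y (1 : ℝ) * Matrix.single y t (1 : ℝ) =
            Matrix.single x t 1 := fun x y t => by
          rw [Matrix.single_mul_single_same, mul_one]
        simp only [Matrix.mul_sub, Matrix.sub_mul, Matrix.mul_add, Matrix.add_mul, e2,
          e1 _ _ _ _ hab, e1 _ _ _ _ (Ne.symm hab)]
        abel) (by
        rw [det_add_pair _ hab, Matrix.det_one, Matrix.adjugate_one, Matrix.one_apply_eq,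
          Matrix.one_apply_eq, Matrix.one_apply_ne hab, Matrix.one_apply_ne (Ne.symm hab)]
        ring) (by
        intro i j hij
        have h2 : ∀ x y : Fin n, R x y → (Matrix.single x y (1 : ℝ)) i j = 0 := by
          intro x y hxy
          rw [Matrix.single_apply, if_neg]
          rintro ⟨rfl, rfl⟩
          exact hij hxy
        rw [Matrix.sub_apply, Matrix.add_apply, Matrix.sub_apply, h2 a a (hR.refl _),
          h2 a b hRab, h2 b a (hR.symm hRab), h2 b b (hR.refl _)]
        ring)
    rw [det_add_pair _ hab, hdet, hoff a b hab hRab, hoff b a (Ne.symm hab) (hR.symm hRab)] at h1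
    linarith
  have hAB : ∀ i j, ¬ R i j → A i j = 0 := by
    intro i j hij
    rw [hA, Matrix.sub_apply, Matrix.smul_apply, hZB i j hij, Matrix.one_apply_ne]
    · simp
    · rintro rfl
      exact hij (hR.refl _)
  have hprod : ∀ a, A.adjugate a a * A a a = 0 := by
    intro a
    have h1 := congrFun (congrFun (Matrix.adjugate_mul A) a) a
    rw [hdet, zero_smul, Matrix.mul_apply, Finset.sum_eq_single a] at h1
    · exact h1
    · intro k _ hk
      by_cases hRak : R a k
      · rw [hoff k a hk (hR.symm hRak), zero_mul]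
      · rw [hAB k a (fun h => hRak (hR.symm h)), mul_zero]
    · intro h
      exact absurd (Finset.mem_univ _) h
  have hn8 : (0 : ℝ) < 8 * (n + 1) := by positivity
  have hE8 : ∀ i j, |E i j| ≤ 1 / 8 := by
    intro i j
    refine (hE i j).trans ?_
    rw [div_le_div_iff₀ hn8 (by norm_num)]
    have : (0 : ℝ) ≤ n := Nat.cast_nonneg _
    linarith
  have hAii : ∀ i, A i i = 1 - q⁻¹ * (D i * (1 + E i i)) := by
    intro i
    rw [hA, Matrix.sub_apply, Matrix.one_apply_eq, Matrix.smul_apply, smul_eq_mul, hZE,
      Matrix.one_apply_eq]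
  -- all diagonal entries of the adjugate vanish
  have hzero : ∀ a, A.adjugate a a = 0 := by
    intro a
    by_contra hne
    obtain ⟨b, hba, hRab⟩ := hcls a
    have h1 := (mul_eq_zero.1 (hprod a)).resolve_left hne
    have h2 := (mul_eq_zero.1 (hprod b)).resolve_left (by rwa [← hdiag a b (Ne.symm hba) hRab])
    rw [hAii] at h1 h2
    have h3 : D a * (1 + E a a) = D b * (1 + E b b) := by
      have h4 : q⁻¹ * (D a * (1 + E a a)) = q⁻¹ * (D b * (1 + E b b)) := by linarith
      exact mul_left_cancel₀ (inv_ne_zero hq) h4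
    have ha := abs_le.1 (hE8 a a)
    have hb := abs_le.1 (hE8 b b)
    have hDa := hD a
    have hDb := hD b
    rcases hsep a b (Ne.symm hba) with h | h
    · nlinarith
    · nlinarith
  -- one of them does not
  have hrow : ∀ k, (2 * D k ≤ |q|) ∨ (2 * |q| ≤ D k) →
      ∑ j ∈ Finset.univ.erase k, |A k j| < |A k k| := by
    intro k hk
    have hq0 : 0 < |q| := abs_pos.2 hq
    have hDk := hD k
    set r : ℝ := |q|⁻¹ * D k with hr
    have hr0 : 0 < r := by positivity
    have h1 : ∀ j ∈ Finset.univ.erase k, |A k j| ≤ r * (1 / (8 * (n + 1))) := by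
      intro j hj
      have hjk := Finset.ne_of_mem_erase hj
      rw [hA, Matrix.sub_apply, Matrix.one_apply_ne (Ne.symm hjk), Matrix.smul_apply, smul_eq_mul,
        hZE, Matrix.one_apply_ne (Ne.symm hjk), zero_sub, zero_add, abs_neg, abs_mul, abs_inv,
        abs_mul, abs_of_pos hDk, ← mul_assoc, ← hr]
      exact mul_le_mul_of_nonneg_left (hE k j) hr0.le
    have h2 : ∑ j ∈ Finset.univ.erase k, |A k j| ≤ r / 8 := by
      refine (Finset.sum_le_sum h1).trans ?_
      rw [Finset.sum_const, nsmul_eq_mul]
      have h3 : ((Finset.univ.erase k).card : ℝ) ≤ n + 1 := by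
        have h4 : (Finset.univ.erase k).card ≤ n := by
          refine (Finset.card_le_univ _).trans ?_
          rw [Fintype.card_fin]
        have h5 : ((Finset.univ.erase k).card : ℝ) ≤ n := by exact_mod_cast h4
        linarith
      calc ((Finset.univ.erase k).card : ℝ) * (r * (1 / (8 * (n + 1)))) ≤
            (n + 1) * (r * (1 / (8 * (n + 1)))) :=
              mul_le_mul_of_nonneg_right h3 (by positivity)
        _ = r / 8 := by field_simp
    refine lt_of_le_of_lt h2 ?_
    rw [hAii]
    have hEk := abs_le.1 (hE8 k k)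
    have h5 : |q⁻¹ * (D k * (1 + E k k))| = r * (1 + E k k) := by
      rw [abs_mul, abs_inv, abs_mul, abs_of_pos hDk, abs_of_pos (by linarith : 0 < 1 + E k k), hr]
      ring
    rcases hk with hk | hk
    · have h6 : r ≤ 1 / 2 := by
        rw [hr, inv_mul_le_iff₀ hq0]
        linarith
      have h7 : (1 : ℝ) - |q⁻¹ * (D k * (1 + E k k))| ≤ |1 - q⁻¹ * (D k * (1 + E k k))| := by
        have := abs_sub_abs_le_abs_sub (1 : ℝ) (q⁻¹ * (D k * (1 + E k k)))
        rwa [abs_one] at this
      rw [h5] at h7
      nlinarith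
    · have h6 : 2 ≤ r := by
        rw [hr, le_inv_mul_iff₀ hq0]
        linarith
      have h7 : |q⁻¹ * (D k * (1 + E k k))| - 1 ≤ |1 - q⁻¹ * (D k * (1 + E k k))| := by
        have := abs_sub_abs_le_abs_sub (q⁻¹ * (D k * (1 + E k k))) (1 : ℝ)
        rw [abs_one] at this
        rwa [abs_sub_comm]
      rw [h5] at h7
      nlinarith
  by_cases hex : ∃ a, ¬ ((2 * D a ≤ |q|) ∨ (2 * |q| ≤ D a))
  · obtain ⟨a, ha⟩ := hex
    push Not at ha
    refine minor_ne (A := A) (a := a) (fun k hk => hrow k ?_) (hzero a)
    by_contra hkc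
    push Not at hkc
    rcases hsep k a hk with h | h
    · linarith [ha.1, ha.2, hkc.1, hkc.2]
    · linarith [ha.1, ha.2, hkc.1, hkc.2]
  · push Not at hex
    rcases Nat.eq_zero_or_pos n with h0 | h0
    · subst h0
      rw [hA] at hdet
      simp at hdet
    · exact minor_ne (A := A) (a := ⟨0, h0⟩) (fun k _ => hrow k (hex k)) (hzero _)

end Pool.Agent.H202.EF
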