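import Mathlib

/-!
# Sequences of near returns
-/

set_option autoImplicit false

open Matrix Finset Filter Topology

namespace Pool.Agent.H202.EF

variable {n : ℕ}

/-- `γ` is a near return with the matrix `a` -/
def Nr (L : Matrix (Fin n) (Fin n) ℝ) (e : ℝ) (a : Fin n → ℝ)
    (γ : Matrix (Fin n) (Fin n) ℤ) : Prop :=
  (∀ i, 0 < a i) ∧ ∏ i, a i = 1 ∧ γ.det = 1 ∧ ∃ E : Matrix (Fin n) (Fin n) ℝ,
    (∀ i j, |E i j| < e) ∧ diagonal a * L * γ.map (Int.cast : ℤ → ℝ) = (1 + E) * L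

/-- `a` is in the cone -/
def Cn (α : Fin n → ℝ) (δ T : ℝ) (a : Fin n → ℝ) : Prop :=
  ∃ s, T ≤ s ∧ ∀ i, |Real.log (a i) - s * α i| ≤ δ * s

lemma Nr.mono {L : Matrix (Fin n) (Fin n) ℝ} {e e' : ℝ} (he : e ≤ e') {a : Fin n → ℝ}
    {γ : Matrix (Fin n) (Fin n) ℤ} (h : Nr L e a γ) : Nr L e' a γ := by
  obtain ⟨h1, h2, h3, E, hE, h4⟩ := h
  exact ⟨h1, h2, h3, E, fun i j => (hE i j).trans_le he, h4⟩

lemma Cn.mul {α : Fin n → ℝ} {δ T : ℝ} (hT : 0 ≤ T) {a a' : Fin n → ℝ} (ha : ∀ i, 0 < a i)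
    (ha' : ∀ i, 0 < a' i) (h : Cn α δ T a) (h' : Cn α δ T a') :
    Cn α δ T (fun i => a i * a' i) := by
  obtain ⟨s, hs, hs2⟩ := h
  obtain ⟨s', hs', hs2'⟩ := h'
  refine ⟨s + s', by linarith, fun i => ?_⟩
  rw [Real.log_mul (ha i).ne' (ha' i).ne']
  have h1 : Real.log (a i) + Real.log (a' i) - (s + s') * α i =
      (Real.log (a i) - s * α i) + (Real.log (a' i) - s' * α i) := by ring
  rw [h1, mul_add]
  exact (abs_add_le _ _).trans (add_le_add (hs2 i) (hs2' i))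

lemma exists_gap {E : Matrix (Fin n) (Fin n) ℝ} {e : ℝ} (h : ∀ i j, |E i j| < e) :
    ∃ ρ : ℝ, 0 < ρ ∧ ∀ i j, |E i j| + ρ < e := by
  have h1 : ∀ᶠ ρ in 𝓝[>] (0 : ℝ), ∀ i j, |E i j| + ρ < e := by
    rw [Filter.eventually_all]
    intro i
    rw [Filter.eventually_all]
    intro j
    have h2 : Tendsto (fun ρ : ℝ => |E i j| + ρ) (𝓝[>] 0) (𝓝 (|E i j| + 0)) :=
      (tendsto_const_nhds.add tendsto_id).mono_left nhdsWithin_le_nhds
    rw [add_zero] at h2
    exact h2.eventually (gt_mem_nhds (h i j))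
  obtain ⟨ρ, hρ, hρ2⟩ := (h1.and self_mem_nhdsWithin).exists
  exact ⟨ρ, hρ2, hρ⟩

/-- products of near returns -/
lemma Nr_comp {L : Matrix (Fin n) (Fin n) ℝ} {e : ℝ} (he : 0 < e) {a₂ : Fin n → ℝ}
    {γ₂ : Matrix (Fin n) (Fin n) ℤ} (h2 : Nr L e a₂ γ₂) :
    ∃ ε : ℝ, 0 < ε ∧ ∀ (a₁ : Fin n → ℝ) (γ₁ : Matrix (Fin n) (Fin n) ℤ), Nr L ε a₁ γ₁ →
      Nr L e (fun i => a₁ i * a₂ i) (γ₁ * γ₂) := by
  classical
  obtain ⟨ha₂, hp₂, hγ₂, E₂, hE₂, h₂⟩ := h2
  obtain ⟨ρ, hρ, hρ2⟩ := exists_gap hE₂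
  set C : ℝ := ∑ i, ∑ j, a₂ i / a₂ j with hC
  have hC0 : 0 ≤ C := Finset.sum_nonneg fun i _ => Finset.sum_nonneg fun j _ =>
    (div_pos (ha₂ i) (ha₂ j)).le
  have hCij : ∀ i j, a₂ i / a₂ j ≤ C := by
    intro i j
    refine le_trans ?_ (Finset.single_le_sum (f := fun i => ∑ j, a₂ i / a₂ j)
      (fun i _ => Finset.sum_nonneg fun j _ => (div_pos (ha₂ i) (ha₂ j)).le) (Finset.mem_univ i))
    exact Finset.single_le_sum (f := fun j => a₂ i / a₂ j)
      (fun j _ => (div_pos (ha₂ i) (ha₂ j)).le) (Finset.mem_univ j)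
  set B : ℝ := n * (C * (1 + e)) + 1 with hB
  have hB0 : 0 < B := by positivity
  refine ⟨ρ / B, div_pos hρ hB0, ?_⟩
  rintro a₁ γ₁ ⟨ha₁, hp₁, hγ₁, E₁, hE₁, h₁⟩
  set F : Matrix (Fin n) (Fin n) ℝ := fun i k => a₂ i / a₂ k * E₁ i k with hF
  have hcomm : diagonal a₂ * (1 + E₁) = (1 + F) * diagonal a₂ := by
    ext i k
    rw [Matrix.diagonal_mul, Matrix.mul_diagonal, Matrix.add_apply, Matrix.add_apply]
    have h3 : F i k = a₂ i / a₂ k * E₁ i k := rfl
    rw [h3]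
    by_cases hik : i = k
    · subst hik
      rw [Matrix.one_apply_eq, div_self (ha₂ i).ne']
      ring
    · rw [Matrix.one_apply_ne hik]
      have := (ha₂ k).ne'
      field_simp
      ring
  refine ⟨fun i => mul_pos (ha₁ i) (ha₂ i), by rw [Finset.prod_mul_distrib, hp₁, hp₂, one_mul],
    by rw [Matrix.det_mul, hγ₁, hγ₂, one_mul], E₂ + F * (1 + E₂), fun i j => ?_, ?_⟩
  · have hFb : ∀ k, |F i k| ≤ C * (ρ / B) := by
      intro k
      have h3 : F i k = a₂ i / a₂ k * E₁ i k := rfl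
      rw [h3, abs_mul, abs_of_pos (div_pos (ha₂ i) (ha₂ k))]
      exact mul_le_mul (hCij i k) (hE₁ i k).le (abs_nonneg _) hC0
    have hEb : ∀ k, |(1 + E₂) k j| ≤ 1 + e := by
      intro k
      rw [Matrix.add_apply]
      refine (abs_add_le _ _).trans (add_le_add ?_ (hE₂ k j).le)
      by_cases hkj : k = j
      · subst hkj
        rw [Matrix.one_apply_eq, abs_one]
      · rw [Matrix.one_apply_ne hkj, abs_zero]
        exact zero_le_one
    have h3 : |(F * (1 + E₂)) i j| ≤ n * (C * (ρ / B) * (1 + e)) := by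
      rw [Matrix.mul_apply]
      refine (Finset.abs_sum_le_sum_abs _ _).trans ?_
      have h4 : ∀ k ∈ (Finset.univ : Finset (Fin n)), |F i k * (1 + E₂) k j| ≤
          C * (ρ / B) * (1 + e) := by
        intro k _
        rw [abs_mul]
        exact mul_le_mul (hFb k) (hEb k) (abs_nonneg _) (by positivity)
      refine (Finset.sum_le_sum h4).trans ?_
      rw [Finset.sum_const, Finset.card_univ, Fintype.card_fin, nsmul_eq_mul]
    have h5 : n * (C * (ρ / B) * (1 + e)) ≤ ρ := by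
      have h6 : n * (C * (ρ / B) * (1 + e)) = (n * (C * (1 + e))) * (ρ / B) := by ring
      rw [h6, hB, mul_div_assoc', div_le_iff₀ (by rw [← hB]; exact hB0)]
      nlinarith
    rw [Matrix.add_apply]
    have h7 := abs_add_le (E₂ i j) ((F * (1 + E₂)) i j)
    have h8 := hρ2 i j
    linarith
  · have h3 : (γ₁ * γ₂).map (Int.cast : ℤ → ℝ) =
        γ₁.map (Int.cast : ℤ → ℝ) * γ₂.map (Int.cast : ℤ → ℝ) := Matrix.map_mul_intCast _ _
    have h4 : diagonal (fun i => a₁ i * a₂ i) = diagonal a₂ * diagonal a₁ := by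
      rw [Matrix.diagonal_mul_diagonal]
      congr 1
      funext i
      ring
    rw [h3, h4]
    calc diagonal a₂ * diagonal a₁ * L * (γ₁.map (Int.cast : ℤ → ℝ) * γ₂.map (Int.cast : ℤ → ℝ)) =
          diagonal a₂ * (diagonal a₁ * L * γ₁.map (Int.cast : ℤ → ℝ)) *
            γ₂.map (Int.cast : ℤ → ℝ) := by simp only [Matrix.mul_assoc]
      _ = diagonal a₂ * (1 + E₁) * L * γ₂.map (Int.cast : ℤ → ℝ) := by
          rw [h₁]
          simp only [Matrix.mul_assoc]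
      _ = (1 + F) * (diagonal a₂ * L * γ₂.map (Int.cast : ℤ → ℝ)) := by
          rw [hcomm]
          simp only [Matrix.mul_assoc]
      _ = (1 + (E₂ + F * (1 + E₂))) * L := by
          rw [h₂, ← Matrix.mul_assoc]
          congr 1
          rw [Matrix.add_mul, Matrix.one_mul, add_assoc]

lemma exists_min {P : ℕ → ℝ → Prop} (hmono : ∀ i ε ε', 0 < ε' → ε' ≤ ε → P i ε → P i ε') :
    ∀ k : ℕ, (∀ i < k, ∃ ε : ℝ, 0 < ε ∧ P i ε) → ∃ ε : ℝ, 0 < ε ∧ ∀ i < k, P i ε := by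
  intro k
  induction k with
  | zero => exact fun _ => ⟨1, one_pos, fun i hi => absurd hi (Nat.not_lt_zero _)⟩
  | succ k ih =>
    intro h
    obtain ⟨ε, hε, hε2⟩ := ih fun i hi => h i (by omega)
    obtain ⟨ε', hε', hε2'⟩ := h k (by omega)
    refine ⟨min ε ε', lt_min hε hε', fun i hi => ?_⟩
    rcases Nat.lt_succ_iff_lt_or_eq.1 hi with h1 | h1
    · exact hmono i ε _ (lt_min hε hε') (min_le_left _ _) (hε2 i h1)
    · subst h1
      exact hmono i ε' _ (lt_min hε hε') (min_le_right _ _) hε2'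

/-- chains of near returns -/
theorem exists_chain {L : Matrix (Fin n) (Fin n) ℝ} {e : ℝ} (he : 0 < e) {α : Fin n → ℝ}
    {δ T : ℝ} (hT : 0 ≤ T) {G : Matrix (Fin n) (Fin n) ℤ → Prop}
    (hG : ∀ x y, G x → G y → G (x * y))
    (hret : ∀ ε : ℝ, 0 < ε → ∃ a γ, Nr L ε a γ ∧ Cn α δ T a ∧ G γ) (k : ℕ) :
    ∃ (b : ℕ → Fin n → ℝ) (y : ℕ → Matrix (Fin n) (Fin n) ℤ),
      (∀ j ≤ k, Nr L e (b j) (y j) ∧ Cn α δ T (b j) ∧ G (y j)) ∧
      ∀ i j, i < j → j ≤ k → Nr L e (fun l => b j l / b i l) (y j * (y i)⁻¹) ∧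
        Cn α δ T (fun l => b j l / b i l) := by
  classical
  induction k with
  | zero =>
    obtain ⟨a, γ, h1, h2, h3⟩ := hret e he
    refine ⟨fun _ => a, fun _ => γ, fun j _ => ⟨h1, h2, h3⟩, fun i j hij hj => ?_⟩
    omega
  | succ k ih =>
    obtain ⟨b, y, h1, h2⟩ := ih
    obtain ⟨ε₁, hε₁, hε₁2⟩ := exists_min
      (P := fun i ε => ∀ (a₁ : Fin n → ℝ) (γ₁ : Matrix (Fin n) (Fin n) ℤ), Nr L ε a₁ γ₁ →
        Nr L e (fun l => a₁ l * (b k l / b i l)) (γ₁ * (y k * (y i)⁻¹)))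
      (fun i ε ε' _ hle h a₁ γ₁ hN => h a₁ γ₁ (hN.mono hle)) k
      (fun i hi => Nr_comp he (h2 i k hi le_rfl).1)
    obtain ⟨ε₂, hε₂, hε₂2⟩ := Nr_comp he (h1 k le_rfl).1
    obtain ⟨a, x, hN, hC, hGx⟩ := hret (min e (min ε₁ ε₂)) (lt_min he (lt_min hε₁ hε₂))
    have hbpos : ∀ j ≤ k, ∀ l, 0 < b j l := fun j hj => (h1 j hj).1.1
    have hunit : ∀ j ≤ k, IsUnit (y j).det := by
      intro j hj
      rw [(h1 j hj).1.2.2.1]
      exact isUnit_one
    refine ⟨Function.update b (k + 1) (fun l => a l * b k l), Function.update y (k + 1) (x * y k),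
      fun j hj => ?_, fun i j hij hj => ?_⟩
    · by_cases hjk : j = k + 1
      · subst hjk
        rw [Function.update_self, Function.update_self]
        refine ⟨hε₂2 a x (hN.mono ((min_le_right _ _).trans (min_le_right _ _))),
          hC.mul hT hN.1 (hbpos k le_rfl) (h1 k le_rfl).2.1, hG _ _ hGx (h1 k le_rfl).2.2⟩
      · rw [Function.update_of_ne hjk, Function.update_of_ne hjk]
        exact h1 j (by omega)
    · have hik : i ≠ k + 1 := by omega
      rw [Function.update_of_ne hik, Function.update_of_ne hik]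
      by_cases hjk : j = k + 1
      · subst hjk
        rw [Function.update_self, Function.update_self]
        by_cases hik' : i = k
        · subst hik'
          have e1 : (fun l => a l * b i l / b i l) = a := by
            funext l
            exact mul_div_cancel_right₀ _ (hbpos i le_rfl l).ne'
          rw [e1, Matrix.mul_assoc, Matrix.mul_nonsing_inv _ (hunit i le_rfl), Matrix.mul_one]
          exact ⟨hN.mono (min_le_left _ _), hC⟩
        · have hlt : i < k := by omega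
          have e1 : (fun l => a l * b k l / b i l) = fun l => a l * (b k l / b i l) := by
            funext l
            rw [mul_div_assoc]
          rw [e1, Matrix.mul_assoc]
          refine ⟨hε₁2 i hlt a x (hN.mono ((min_le_right _ _).trans (min_le_left _ _))),
            hC.mul hT hN.1 (fun l => div_pos (hbpos k le_rfl l) (hbpos i hlt.le l))
              (h2 i k hlt le_rfl).2⟩
      · rw [Function.update_of_ne hjk, Function.update_of_ne hjk]
        exact h2 i j hij (by omega)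

end Pool.Agent.H202.EF
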