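import Mathlib
import Pool.Agent.H202.EF.Seq

/-!
# Directions with distinct entries
-/

set_option autoImplicit false

open Matrix Finset Filter Topology

namespace Pool.Agent.H202.EF

variable {n : ℕ}

lemma exists_distinct (hn : 0 < n) {α : Fin n → ℝ} (hα : ∑ i, α i = 0) {r : ℝ} (hr : 0 < r) :
    ∃ β : Fin n → ℝ, ∑ i, β i = 0 ∧ (∀ i, |β i - α i| ≤ r) ∧ ∀ i j, i ≠ j → β i ≠ β j := by
  classical
  set S : ℝ := ∑ i : Fin n, (((i : ℕ) : ℝ)) with hS
  set v : Fin n → ℝ := fun i => (((i : ℕ) : ℝ)) - S / n with hv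
  have hn0 : (n : ℝ) ≠ 0 := by exact_mod_cast hn.ne'
  have hvsum : ∑ i, v i = 0 := by
    simp only [hv]
    rw [Finset.sum_sub_distrib, Finset.sum_const, Finset.card_univ, Fintype.card_fin,
      nsmul_eq_mul, mul_div_cancel₀ _ hn0, ← hS, sub_self]
  have hvinj : ∀ i j, i ≠ j → v i - v j ≠ 0 := by
    intro i j hij h
    apply hij
    apply Fin.ext
    have h1 : ((i : ℕ) : ℝ) = ((j : ℕ) : ℝ) := by
      simp only [hv] at h
      linarith
    exact_mod_cast h1
  set V : ℝ := 1 + ∑ i, |v i| with hV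
  have hV0 : 0 < V := by positivity
  have hvV : ∀ i, |v i| ≤ V := by
    intro i
    have := Finset.single_le_sum (f := fun i => |v i|) (fun i _ => abs_nonneg _)
      (Finset.mem_univ i)
    linarith
  obtain ⟨t, ht, ht2⟩ : ∃ t ∈ Set.Ioo (0 : ℝ) (r / V),
      t ∉ (Set.range fun p : Fin n × Fin n => -(α p.1 - α p.2) / (v p.1 - v p.2)) := by
    have h1 : (Set.Ioo (0 : ℝ) (r / V)).Infinite := Set.Ioo_infinite (div_pos hr hV0)
    exact (h1.sdiff (Set.finite_range _)).nonempty
  refine ⟨fun i => α i + t * v i, ?_, fun i => ?_, fun i j hij h => ?_⟩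
  · rw [Finset.sum_add_distrib, hα, ← Finset.mul_sum, hvsum, mul_zero, add_zero]
  · rw [add_sub_cancel_left, abs_mul, abs_of_pos ht.1]
    have h1 := ht.2
    rw [lt_div_iff₀ hV0] at h1
    exact (mul_le_mul_of_nonneg_left (hvV i) ht.1.le).trans h1.le
  · apply ht2
    refine ⟨(i, j), ?_⟩
    simp only
    rw [div_eq_iff (hvinj i j hij)]
    simp only at h
    linarith

lemma exists_eta {β : Fin n → ℝ} (h : ∀ i j, i ≠ j → β i ≠ β j) :
    ∃ η : ℝ, 0 < η ∧ ∀ i j, i ≠ j → η ≤ |β i - β j| := by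
  have h1 : ∀ᶠ η in 𝓝[>] (0 : ℝ), ∀ i j, i ≠ j → η ≤ |β i - β j| := by
    rw [Filter.eventually_all]
    intro i
    rw [Filter.eventually_all]
    intro j
    by_cases hij : i = j
    · exact Filter.Eventually.of_forall fun _ h => absurd hij h
    · have h2 : 0 < |β i - β j| := abs_pos.2 (sub_ne_zero.2 (h i j hij))
      have h3 : ∀ᶠ η in 𝓝[>] (0 : ℝ), η < |β i - β j| :=
        (gt_mem_nhds h2).filter_mono nhdsWithin_le_nhds
      exact h3.mono fun η hη _ => hη.le
  obtain ⟨η, hη, hη2⟩ := (h1.and self_mem_nhdsWithin).exists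
  exact ⟨η, hη2, hη⟩

/-- a thin cone in which all ratios of two entries are large or small -/
theorem exists_cone (hn : 0 < n) {α₀ : Fin n → ℝ} (hα : ∑ i, α₀ i = 0) {δ₀ T₀ : ℝ}
    (hδ₀ : 0 < δ₀) : ∃ (α : Fin n → ℝ) (δ T : ℝ), ∑ i, α i = 0 ∧ 0 < δ ∧ 0 ≤ T ∧
      (∀ a, Cn α δ T a → Cn α₀ δ₀ T₀ a) ∧
      ∀ a : Fin n → ℝ, (∀ i, 0 < a i) → Cn α δ T a →
        ∀ i j, i ≠ j → 4 * a i ≤ a j ∨ 4 * a j ≤ a i := by
  obtain ⟨β, hβ, hβα, hβi⟩ := exists_distinct hn hα (r := δ₀ / 2) (by positivity)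
  obtain ⟨η, hη, hη2⟩ := exists_eta hβi
  have hT1 : T₀ ≤ max (max T₀ 0) (4 / η) := (le_max_left _ _).trans (le_max_left _ _)
  have hT2 : 0 ≤ max (max T₀ 0) (4 / η) := (le_max_right _ _).trans (le_max_left _ _)
  have hT3 : 4 / η ≤ max (max T₀ 0) (4 / η) := le_max_right _ _
  refine ⟨β, min (δ₀ / 2) (η / 4), max (max T₀ 0) (4 / η), hβ, lt_min (by positivity)
    (by positivity), hT2, ?_, ?_⟩
  · rintro a ⟨s, hs, hs2⟩
    refine ⟨s, hT1.trans hs, fun i => ?_⟩
    have hs0 : 0 ≤ s := hT2.trans hs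
    have h1 : Real.log (a i) - s * α₀ i = (Real.log (a i) - s * β i) + s * (β i - α₀ i) := by
      ring
    rw [h1]
    refine (abs_add_le _ _).trans ?_
    rw [abs_mul, abs_of_nonneg hs0]
    have h2 := hs2 i
    have h3 := mul_le_mul_of_nonneg_left (hβα i) hs0
    have h4 := mul_le_mul_of_nonneg_right (min_le_left (δ₀ / 2) (η / 4)) hs0
    linarith
  · rintro a ha ⟨s, hs, hs2⟩ i j hij
    have hs0 : 0 ≤ s := hT2.trans hs
    have hsη : 4 ≤ s * η := by
      have := hT3.trans hs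
      rwa [div_le_iff₀ hη] at this
    have h2 : 2 ≤ |Real.log (a i) - Real.log (a j)| := by
      have h3 := hs2 i
      have h4 := hs2 j
      have h5 := hη2 i j hij
      have h6 := mul_le_mul_of_nonneg_right (min_le_right (δ₀ / 2) (η / 4)) hs0
      have h7 : s * |β i - β j| ≤ |Real.log (a i) - Real.log (a j)| +
          (|Real.log (a i) - s * β i| + |Real.log (a j) - s * β j|) := by
        have h8 : s * (β i - β j) = (Real.log (a i) - Real.log (a j)) +
            (-(Real.log (a i) - s * β i) + (Real.log (a j) - s * β j)) := by ring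
        have h9 : s * |β i - β j| = |s * (β i - β j)| := by rw [abs_mul, abs_of_nonneg hs0]
        rw [h9, h8]
        refine (abs_add_le _ _).trans (add_le_add le_rfl ?_)
        refine (abs_add_le _ _).trans ?_
        rw [abs_neg]
      have h10 := mul_le_mul_of_nonneg_left h5 hs0
      nlinarith
    have h4 : Real.log 4 ≤ 2 := by
      have h5 : (4 : ℝ) = 2 ^ 2 := by norm_num
      rw [h5, Real.log_pow]
      have := Real.log_two_lt_d9
      push_cast
      linarith
    rcases le_abs.1 h2 with h | h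
    · right
      have h5 : Real.log (4 * a j) ≤ Real.log (a i) := by
        rw [Real.log_mul (by norm_num) (ha j).ne']
        linarith
      exact (Real.log_le_log_iff (mul_pos (by norm_num) (ha j)) (ha i)).1 h5
    · left
      have h5 : Real.log (4 * a i) ≤ Real.log (a j) := by
        rw [Real.log_mul (by norm_num) (ha i).ne']
        linarith
      exact (Real.log_le_log_iff (mul_pos (by norm_num) (ha i)) (ha j)).1 h5

end Pool.Agent.H202.EF
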