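import Mathlib

/-!
# Irreducibility over number fields in prime degree
-/

set_option autoImplicit false

open Matrix Polynomial

namespace Pool.Agent.H202.EF

variable {n : ℕ}

/-- an irreducible characteristic polynomial of prime degree stays irreducible over a number field
if a root is not in the Galois closure of the field -/
theorem irreducible_over (hp : n.Prime) {γ : Matrix (Fin n) (Fin n) ℤ}
    (hirr : Irreducible (γ.charpoly.map (Int.castRingHom ℚ))) {x : ℂ}
    (hx : aeval x γ.charpoly = 0) (K : IntermediateField ℚ ℂ) [FiniteDimensional ℚ K]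
    (hN : x ∉ IntermediateField.normalClosure ℚ K ℂ) :
    Irreducible (γ.charpoly.map (algebraMap ℤ K)) := by
  classical
  have hmonic : γ.charpoly.Monic := Matrix.charpoly_monic γ
  have hdeg : γ.charpoly.natDegree = n := by
    rw [Matrix.charpoly_natDegree_eq_dim, Fintype.card_fin]
  have hxQ : aeval x (γ.charpoly.map (Int.castRingHom ℚ)) = 0 := by
    have h1 := Polynomial.aeval_map_algebraMap ℚ x γ.charpoly
    rw [hx] at h1
    exact h1
  have hmin : minpoly ℚ x = γ.charpoly.map (Int.castRingHom ℚ) :=
    (minpoly.eq_of_irreducible_of_monic hirr hxQ (hmonic.map _)).symm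
  have hint : IsIntegral ℚ x := ⟨_, hmonic.map _, by
    rw [← Polynomial.aeval_def]
    exact hxQ⟩
  set E : IntermediateField ℚ ℂ := IntermediateField.adjoin ℚ {x} with hE
  have hEfin : FiniteDimensional ℚ E := IntermediateField.adjoin.finiteDimensional hint
  have hEn : Module.finrank ℚ E = n := by
    rw [hE, IntermediateField.adjoin.finrank hint, hmin,
      hmonic.natDegree_map, hdeg]
  have hxE : x ∈ E := IntermediateField.mem_adjoin_simple_self ℚ x
  set N : IntermediateField ℚ ℂ := IntermediateField.normalClosure ℚ K ℂ with hNdef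
  have hKalg : Algebra.IsAlgebraic ℚ K := inferInstance
  have hNn : Normal ℚ N := (hKalg.isNormalClosure_normalClosure (F := ℚ) (K := K) (L := ℂ)
    (fun y => IsAlgClosed.splits _)).normal
  have hNg : IsGalois ℚ N := { to_isSeparable := inferInstance, to_normal := hNn }
  have hKN : K ≤ N := by
    have h1 := (K.val).fieldRange_le_normalClosure
    rwa [IntermediateField.fieldRange_val] at h1
  have hinf : N ⊓ E = ⊥ := by
    have h1 : Module.finrank ℚ ↥(N ⊓ E) ∣ n := by
      rw [← hEn]
      exact IntermediateField.finrank_dvd_of_le_right inf_le_right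
    rcases (Nat.dvd_prime hp).1 h1 with h2 | h2
    · exact IntermediateField.finrank_eq_one_iff.1 h2
    · exfalso
      have h3 : N ⊓ E = E :=
        IntermediateField.eq_of_le_of_finrank_eq inf_le_right (h2.trans hEn.symm)
      have h4 : x ∈ N ⊓ E := by
        rw [h3]
        exact hxE
      exact hN h4.1
  have hdis : N.LinearDisjoint E := by
    have h1 : @IsGalois ℚ _ N _ (IntermediateField.algebra' N) := by
      convert hNg
      exact Subsingleton.elim _ _
    exact @IntermediateField.LinearDisjoint.of_inf_eq_bot ℚ ℂ _ _ _ N E h1 inferInstance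
      inferInstance hinf
  have hdisK : K.LinearDisjoint E := hdis.of_le_left hKN
  have hsup := hdisK.finrank_sup
  rw [hEn] at hsup
  have hintK : IsIntegral K x := hint.tower_top
  have hsup2 : (IntermediateField.adjoin K {x}).restrictScalars ℚ = K ⊔ E :=
    IntermediateField.restrictScalars_adjoin_eq_sup ℚ K {x}
  have hfr : Module.finrank ℚ ↥(IntermediateField.adjoin K {x}) =
      Module.finrank ℚ K * n := by
    rw [← hsup, ← hsup2]
    rfl
  have hKfin : Module.finrank K ↥(IntermediateField.adjoin K {x}) = n := by
    have h1 := Module.finrank_mul_finrank ℚ K ↥(IntermediateField.adjoin K {x})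
    rw [hfr] at h1
    exact Nat.eq_of_mul_eq_mul_left Module.finrank_pos h1
  have hmdeg : (minpoly K x).natDegree = n := by
    rw [← IntermediateField.adjoin.finrank hintK, hKfin]
  have hdvd : minpoly K x ∣ γ.charpoly.map (algebraMap ℤ K) := by
    refine minpoly.dvd K x ?_
    have h1 := Polynomial.aeval_map_algebraMap K x γ.charpoly
    rw [hx] at h1
    exact h1
  have heq : γ.charpoly.map (algebraMap ℤ K) = minpoly K x := by
    refine Polynomial.eq_of_monic_of_dvd_of_natDegree_le (minpoly.monic hintK)
      (hmonic.map _) hdvd ?_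
    rw [hmonic.natDegree_map, hdeg, hmdeg]
  rw [heq]
  exact minpoly.irreducible hintK

end Pool.Agent.H202.EF
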