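import Mathlib

/-!
# Eigenvalues of integral matrices in a number field
-/

set_option autoImplicit false

open Matrix Finset

namespace Pool.Agent.H202.EF

variable {n : ℕ}

lemma map_eigen {K C : Type*} [Field K] [CommRing C] (τ : K →+* C)
    (γ : Matrix (Fin n) (Fin n) ℤ) (x : K) :
    τ ((γ.map (Int.cast : ℤ → K) - x • 1).det) =
      (γ.map (Int.cast : ℤ → C) - τ x • 1).det := by
  rw [RingHom.map_det]
  congr 1
  ext i j
  simp only [RingHom.mapMatrix_apply, Matrix.map_apply, Matrix.sub_apply, Matrix.smul_apply,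
    smul_eq_mul, map_sub, map_intCast, map_mul]
  congr 2
  by_cases h : i = j
  · subst h
    rw [Matrix.one_apply_eq, Matrix.one_apply_eq, map_one]
  · rw [Matrix.one_apply_ne h, Matrix.one_apply_ne h, map_zero]

/-- conjugates of eigenvalues are eigenvalues -/
lemma conj_eigen {K A : Type*} [Field K] [CommRing A] {B : Type*} [CommRing B] (ι : K →+* A)
    (hι : Function.Injective ι) (σ : K →+* B) {γ : Matrix (Fin n) (Fin n) ℤ} {x : K}
    (hx : (γ.map (Int.cast : ℤ → A) - ι x • 1).det = 0) :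
    (γ.map (Int.cast : ℤ → K) - x • 1).det = 0 ∧
      (γ.map (Int.cast : ℤ → B) - σ x • 1).det = 0 := by
  have h1 : (γ.map (Int.cast : ℤ → K) - x • 1).det = 0 := by
    apply hι
    rw [map_zero, map_eigen ι]
    exact hx
  exact ⟨h1, by rw [← map_eigen σ, h1, map_zero]⟩

/-- eigenvalues are integral -/
lemma eigen_integral {K : Type*} [Field K] {γ : Matrix (Fin n) (Fin n) ℤ} {x : K}
    (hx : (γ.map (Int.cast : ℤ → K) - x • 1).det = 0) : IsIntegral ℤ x := by
  refine ⟨γ.charpoly, Matrix.charpoly_monic γ, ?_⟩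
  have h1 : Polynomial.eval₂ (algebraMap ℤ K) x γ.charpoly =
      (γ.map (algebraMap ℤ K)).charpoly.eval x := by
    rw [Matrix.charpoly_map, Polynomial.eval_map]
  rw [h1, Matrix.eval_charpoly]
  have h2 : Matrix.scalar (Fin n) x - γ.map (algebraMap ℤ K) =
      -(γ.map (Int.cast : ℤ → K) - x • 1) := by
    rw [neg_sub]
    congr 1
    rw [Matrix.smul_one_eq_diagonal]
    rfl
  rw [h2, Matrix.det_neg, hx, mul_zero]

/-- eigenvalues of unimodular matrices are units -/
lemma eigen_inv {K : Type*} [Field K] [CharZero K] {γ : Matrix (Fin n) (Fin n) ℤ}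
    (hγ : γ.det = 1) {x : K} (hx : (γ.map (Int.cast : ℤ → K) - x • 1).det = 0) :
    x ≠ 0 ∧ IsIntegral ℤ x⁻¹ := by
  have hdetK : (γ.map (Int.cast : ℤ → K)).det = 1 := by
    have h1 : (γ.map (Int.cast : ℤ → K)).det = ((γ.det : ℤ) : K) :=
      (Int.cast_det (R := K) γ).symm
    rw [h1, hγ, Int.cast_one]
  have hx0 : x ≠ 0 := by
    rintro rfl
    rw [zero_smul, sub_zero, hdetK] at hx
    exact one_ne_zero hx
  refine ⟨hx0, eigen_integral (γ := γ⁻¹) ?_⟩
  have hu : IsUnit γ.det := by rw [hγ]; exact isUnit_one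
  have h1 : (γ⁻¹).map (Int.cast : ℤ → K) * γ.map (Int.cast : ℤ → K) = 1 := by
    have h2 := Matrix.nonsing_inv_mul γ hu
    have h3 := congrArg (fun M : Matrix (Fin n) (Fin n) ℤ => (Int.castRingHom K).mapMatrix M) h2
    simp only [map_mul, map_one] at h3
    exact h3
  have h2 : (γ⁻¹).map (Int.cast : ℤ → K) - x⁻¹ • 1 =
      (-x⁻¹) • ((γ⁻¹).map (Int.cast : ℤ → K) * (γ.map (Int.cast : ℤ → K) - x • 1)) := by
    rw [Matrix.mul_sub, h1, Matrix.mul_smul, Matrix.mul_one, smul_sub, smul_smul, neg_mul,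
      inv_mul_cancel₀ hx0, neg_smul, neg_smul, one_smul]
    abel
  rw [h2, Matrix.det_smul, Matrix.det_mul, hx, mul_zero, mul_zero]

/-- localization of the eigenvalues -/
lemma loc {L : Matrix (Fin n) (Fin n) ℝ} (hL : L.det ≠ 0) {γ : Matrix (Fin n) (Fin n) ℤ}
    {D : Fin n → ℝ} (hD : ∀ i, 0 < D i) {E : Matrix (Fin n) (Fin n) ℝ}
    (hE : ∀ i j, |E i j| ≤ 1 / (8 * (n + 1)))
    (h : L * γ.map (Int.cast : ℤ → ℝ) = diagonal D * (1 + E) * L) {μ : ℂ}
    (hμ : (γ.map (Int.cast : ℤ → ℂ) - μ • 1).det = 0) :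
    ∃ k, D k / 2 ≤ ‖μ‖ ∧ ‖μ‖ ≤ 2 * D k := by
  classical
  set φ : Matrix (Fin n) (Fin n) ℝ →+* Matrix (Fin n) (Fin n) ℂ :=
    (Complex.ofRealHom).mapMatrix with hφ
  set X : Matrix (Fin n) (Fin n) ℝ := diagonal D * (1 + E) with hX
  have h1 : φ L * γ.map (Int.cast : ℤ → ℂ) = φ X * φ L := by
    have h2 := congrArg φ h
    rw [map_mul, map_mul] at h2
    rw [← h2]
    congr 1
  have hLC : (φ L).det ≠ 0 := by
    rw [hφ, ← RingHom.map_det]
    simpa using hL
  have h2 : (φ X - μ • 1) * φ L = φ L * (γ.map (Int.cast : ℤ → ℂ) - μ • 1) := by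
    rw [Matrix.sub_mul, Matrix.mul_sub, h1, Matrix.smul_mul, Matrix.one_mul, Matrix.mul_smul,
      Matrix.mul_one]
  have h3 : (φ X - μ • 1).det = 0 := by
    have h4 := congrArg Matrix.det h2
    rw [Matrix.det_mul, Matrix.det_mul, hμ, mul_zero] at h4
    exact (mul_eq_zero.1 h4).resolve_right hLC
  obtain ⟨k, hk⟩ : ∃ k, ‖(φ X - μ • 1) k k‖ ≤
      ∑ j ∈ Finset.univ.erase k, ‖(φ X - μ • 1) k j‖ := by
    by_contra hcon
    push Not at hcon
    exact det_ne_zero_of_sum_row_lt_diag hcon h3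
  have hXe : ∀ i j, X i j = D i * ((1 : Matrix (Fin n) (Fin n) ℝ) i j + E i j) := by
    intro i j
    rw [hX, Matrix.diagonal_mul, Matrix.add_apply]
  have hn8 : (0 : ℝ) < 8 * (n + 1) := by positivity
  have hDk := hD k
  have h5 : ∑ j ∈ Finset.univ.erase k, ‖(φ X - μ • 1) k j‖ ≤ D k / 8 := by
    have h6 : ∀ j ∈ Finset.univ.erase k, ‖(φ X - μ • 1) k j‖ ≤ D k * (1 / (8 * (n + 1))) := by
      intro j hj
      have hjk := Finset.ne_of_mem_erase hj
      rw [Matrix.sub_apply, Matrix.smul_apply, Matrix.one_apply_ne (Ne.symm hjk), smul_zero,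
        sub_zero]
      have h7 : (φ X) k j = ((X k j : ℝ) : ℂ) := rfl
      rw [h7, Complex.norm_real, Real.norm_eq_abs, hXe, Matrix.one_apply_ne (Ne.symm hjk),
        zero_add, abs_mul, abs_of_pos hDk]
      exact mul_le_mul_of_nonneg_left (hE k j) hDk.le
    refine (Finset.sum_le_sum h6).trans ?_
    rw [Finset.sum_const, nsmul_eq_mul]
    have h8 : ((Finset.univ.erase k).card : ℝ) ≤ n + 1 := by
      have h4 : (Finset.univ.erase k).card ≤ n := by
        refine (Finset.card_le_univ _).trans ?_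
        rw [Fintype.card_fin]
      have h5 : ((Finset.univ.erase k).card : ℝ) ≤ n := by exact_mod_cast h4
      linarith
    calc ((Finset.univ.erase k).card : ℝ) * (D k * (1 / (8 * (n + 1)))) ≤
          (n + 1) * (D k * (1 / (8 * (n + 1)))) :=
            mul_le_mul_of_nonneg_right h8 (by positivity)
      _ = D k / 8 := by field_simp
  have h6 : (φ X - μ • 1) k k = ((D k * (1 + E k k) : ℝ) : ℂ) - μ := by
    rw [Matrix.sub_apply, Matrix.smul_apply, Matrix.one_apply_eq, smul_eq_mul, mul_one]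
    congr 1
    have h7 : (φ X) k k = ((X k k : ℝ) : ℂ) := rfl
    rw [h7, hXe, Matrix.one_apply_eq]
  rw [h6] at hk
  have hEk : |E k k| ≤ 1 / 8 := by
    refine (hE k k).trans ?_
    rw [div_le_div_iff₀ hn8 (by norm_num)]
    have : (0 : ℝ) ≤ n := Nat.cast_nonneg _
    linarith
  have hEk' := abs_le.1 hEk
  have h7 : ‖((D k * (1 + E k k) : ℝ) : ℂ)‖ = D k * (1 + E k k) := by
    rw [Complex.norm_real, Real.norm_eq_abs, abs_of_pos]
    exact mul_pos hDk (by linarith)
  have h8 := hk.trans h5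
  have h9 := norm_sub_norm_le ((D k * (1 + E k k) : ℝ) : ℂ) μ
  have h10 := norm_sub_norm_le μ ((D k * (1 + E k k) : ℝ) : ℂ)
  rw [norm_sub_rev] at h10
  rw [h7] at h9 h10
  refine ⟨k, ?_, ?_⟩
  · nlinarith
  · nlinarith

end Pool.Agent.H202.EF
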