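import Mathlib
import Pool.Agent.H202.ZR.Gener
import Pool.Agent.H202.EF.Seq

/-!
# Generic cones of directions
-/

set_option autoImplicit false

open Matrix Finset Filter Topology

namespace Pool.Agent.H202.EF

variable {n : ℕ}

lemma exists_gen (hn : 0 < n) {α : Fin n → ℝ} (hα : ∑ i, α i = 0) {r : ℝ} (hr : 0 < r) :
    ∃ β : Fin n → ℝ, ∑ i, β i = 0 ∧ (∀ i, |β i - α i| ≤ r) ∧ (∀ i j, i ≠ j → β i ≠ β j) ∧
      ∀ I : Finset (Fin n), I.Nonempty → I ≠ Finset.univ → ∑ k ∈ I, β k ≠ 0 := by
  classical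
  set i₀ : Fin n := ⟨0, hn⟩ with hi₀
  set Q : (Fin n → Fin 3) → Fin n → ℕ := fun c i => if i = i₀ then 0 else ((c i : Fin 3) : ℕ)
    with hQ
  obtain ⟨β, hβ, hβα, hgen⟩ := Pool.Agent.H202.ZR.exists_generic i₀ (K := 0)
    (T := Finset.univ.image Q) (by
      intro q hq
      obtain ⟨c, -, rfl⟩ := Finset.mem_image.1 hq
      simp [hQ]) hα hr
  have hQmem : ∀ c, Q c ∈ Finset.univ.image Q := fun c =>
    Finset.mem_image_of_mem _ (Finset.mem_univ c)
  have hgen' : ∀ c c' : Fin n → Fin 3, (∃ i, i ≠ i₀ ∧ c i ≠ c' i) →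
      ∑ i, β i * ((Q c i : ℝ) - Q c' i) ≠ 0 := by
    rintro c c' ⟨i, hi, hne⟩
    refine hgen _ (hQmem c) _ (hQmem c') fun h => hne ?_
    have h1 := congrFun h i
    simp only [hQ, if_neg hi] at h1
    exact Fin.ext h1
  have hsub : ∀ I : Finset (Fin n), I.Nonempty → i₀ ∉ I → ∑ k ∈ I, β k ≠ 0 := by
    intro I hI hi
    obtain ⟨j, hj⟩ := hI
    have hji : j ≠ i₀ := fun h => hi (h ▸ hj)
    have h1 := hgen' (fun i => if i ∈ I then 1 else 0) (fun _ => 0) ⟨j, hji, by
      simp only [if_pos hj]
      decide⟩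
    intro h0
    apply h1
    rw [← h0, ← Finset.sum_filter_add_sum_filter_not Finset.univ (fun i => i ∈ I)
      (fun i => β i * ((Q (fun i => if i ∈ I then 1 else 0) i : ℝ) - Q (fun _ => 0) i))]
    have h2 : ∑ i ∈ Finset.univ.filter (fun i => ¬ i ∈ I),
        β i * ((Q (fun i => if i ∈ I then 1 else 0) i : ℝ) - Q (fun _ => 0) i) = 0 := by
      refine Finset.sum_eq_zero fun i hi' => ?_
      have h3 := (Finset.mem_filter.1 hi').2
      simp [hQ, h3]
    have h4 : Finset.univ.filter (fun i => i ∈ I) = I := by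
      ext i
      simp
    rw [h2, add_zero, h4]
    refine Finset.sum_congr rfl fun i hi' => ?_
    have h5 : i ≠ i₀ := fun h => hi (h ▸ hi')
    simp [hQ, hi', h5]
  refine ⟨β, hβ, hβα, ?_, ?_⟩
  · have hpair : ∀ i j, i ≠ i₀ → i ≠ j → β i ≠ β j := by
      intro i j hi hij h
      by_cases hj : j = i₀
      · subst hj
        -- `β i - β i₀ = β i + ∑_{l ≠ i₀} β l`
        have h1 := hgen' (fun l => if l = i then 2 else 1) (fun _ => 0) ⟨i, hi, by
          simp only [if_true]
          decide⟩
        apply h1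
        have h2 : ∀ l, β l * ((Q (fun l => if l = i then 2 else 1) l : ℝ) -
            Q (fun _ => 0) l) = (if l = i then β i else 0) + β l -
              (if l = i₀ then β i₀ else 0) := by
          intro l
          by_cases hl : l = i₀
          · subst hl
            simp [hQ, Ne.symm hi]
          · by_cases hl' : l = i
            · subst hl'
              simp [hQ, hl]
              ring
            · simp [hQ, hl, hl']
        rw [Finset.sum_congr rfl fun l _ => h2 l, Finset.sum_sub_distrib,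
          Finset.sum_add_distrib, hβ]
        simp only [Finset.sum_ite_eq', Finset.mem_univ, if_true]
        rw [h]
        ring
      · have h1 := hgen' (fun l => if l = i then 1 else 0) (fun l => if l = j then 1 else 0)
          ⟨i, hi, by
            simp only [if_true, if_neg hij]
            decide⟩
        apply h1
        have h2 : ∀ l, β l * ((Q (fun l => if l = i then 1 else 0) l : ℝ) -
            Q (fun l => if l = j then 1 else 0) l) =
              (if l = i then β i else 0) - (if l = j then β j else 0) := by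
          intro l
          by_cases hl : l = i₀
          · subst hl
            simp [hQ, Ne.symm hi, Ne.symm hj]
          · by_cases hl' : l = i
            · subst hl'
              simp [hQ, hl, hij]
            · by_cases hl'' : l = j
              · subst hl''
                simp [hQ, hl, hl']
              · simp [hQ, hl, hl', hl'']
        rw [Finset.sum_congr rfl fun l _ => h2 l, Finset.sum_sub_distrib]
        simp only [Finset.sum_ite_eq', Finset.mem_univ, if_true]
        rw [h, sub_self]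
    intro i j hij
    by_cases hi : i = i₀
    · have hj : j ≠ i₀ := fun h => hij (hi.trans h.symm)
      exact (hpair j i hj (Ne.symm hij)).symm
    · exact hpair i j hi hij
  · intro I hI hIu
    by_cases hi : i₀ ∈ I
    · have h1 := hsub Iᶜ (by
        rw [Finset.nonempty_iff_ne_empty, Ne, Finset.compl_eq_empty_iff]
        exact hIu) (by
        rw [Finset.mem_compl]
        exact fun h => h hi)
      intro h0
      apply h1
      have h2 := Finset.sum_add_sum_compl I β
      rw [hβ, h0, zero_add] at h2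
      exact h2
    · exact hsub I hI hi

lemma exists_eta' {β : Fin n → ℝ} (h : ∀ i j, i ≠ j → β i ≠ β j)
    (h' : ∀ I : Finset (Fin n), I.Nonempty → I ≠ Finset.univ → ∑ k ∈ I, β k ≠ 0) :
    ∃ η : ℝ, 0 < η ∧ (∀ i j, i ≠ j → η ≤ |β i - β j|) ∧
      ∀ I : Finset (Fin n), I.Nonempty → I ≠ Finset.univ → η ≤ |∑ k ∈ I, β k| := by
  have h1 : ∀ᶠ η in 𝓝[>] (0 : ℝ), ∀ i j, i ≠ j → η ≤ |β i - β j| := by
    rw [Filter.eventually_all]
    intro i
    rw [Filter.eventually_all]
    intro j
    by_cases hij : i = j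
    · exact Filter.Eventually.of_forall fun _ h => absurd hij h
    · have h2 : 0 < |β i - β j| := abs_pos.2 (sub_ne_zero.2 (h i j hij))
      have h3 : ∀ᶠ η in 𝓝[>] (0 : ℝ), η < |β i - β j| :=
        (gt_mem_nhds h2).filter_mono nhdsWithin_le_nhds
      exact h3.mono fun η hη _ => hη.le
  have h2 : ∀ᶠ η in 𝓝[>] (0 : ℝ), ∀ I : Finset (Fin n), I.Nonempty → I ≠ Finset.univ →
      η ≤ |∑ k ∈ I, β k| := by
    rw [Filter.eventually_all]
    intro I
    by_cases hI : I.Nonempty ∧ I ≠ Finset.univ
    · have h3 : 0 < |∑ k ∈ I, β k| := abs_pos.2 (h' I hI.1 hI.2)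
      have h4 : ∀ᶠ η in 𝓝[>] (0 : ℝ), η < |∑ k ∈ I, β k| :=
        (gt_mem_nhds h3).filter_mono nhdsWithin_le_nhds
      exact h4.mono fun η hη _ _ => hη.le
    · exact Filter.Eventually.of_forall fun _ h1 h2 => absurd ⟨h1, h2⟩ hI
  obtain ⟨η, ⟨hη, hη'⟩, hη2⟩ := ((h1.and h2).and self_mem_nhdsWithin).exists
  exact ⟨η, hη2, hη, hη'⟩

/-- a thin cone of generic directions -/
theorem exists_cone' (hn : 0 < n) {α₀ : Fin n → ℝ} (hα : ∑ i, α₀ i = 0) {δ₀ T₀ : ℝ}
    (hδ₀ : 0 < δ₀) : ∃ (α : Fin n → ℝ) (δ T : ℝ), ∑ i, α i = 0 ∧ 0 < δ ∧ 0 ≤ T ∧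
      (∀ a, Cn α δ T a → Cn α₀ δ₀ T₀ a) ∧
      ∀ a : Fin n → ℝ, (∀ i, 0 < a i) → Cn α δ T a →
        (∀ i j, i ≠ j → 4 * a i ≤ a j ∨ 4 * a j ≤ a i) ∧
        ∀ I : Finset (Fin n), I.Nonempty → I ≠ Finset.univ →
          n * Real.log 2 < |∑ k ∈ I, Real.log (a k)| := by
  obtain ⟨β, hβ, hβα, hβi, hβI⟩ := exists_gen hn hα (r := δ₀ / 2) (by positivity)
  obtain ⟨η, hη, hη2, hη3⟩ := exists_eta' hβi hβI
  have hn0 : (0 : ℝ) ≤ n := Nat.cast_nonneg _
  set T₁ : ℝ := (4 + 2 * n) / η with hT₁
  have hT1 : T₀ ≤ max (max T₀ 0) T₁ := (le_max_left _ _).trans (le_max_left _ _)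
  have hT2 : 0 ≤ max (max T₀ 0) T₁ := (le_max_right _ _).trans (le_max_left _ _)
  have hT3 : T₁ ≤ max (max T₀ 0) T₁ := le_max_right _ _
  set δ : ℝ := min (δ₀ / 2) (η / (4 * (n + 1))) with hδ
  have hδ1 : δ ≤ δ₀ / 2 := min_le_left _ _
  have hδ2 : δ * (4 * (n + 1)) ≤ η := by
    have h1 : δ ≤ η / (4 * (n + 1)) := min_le_right _ _
    rwa [le_div_iff₀ (by positivity)] at h1
  have hδ0 : 0 < δ := lt_min (by positivity) (by positivity)
  refine ⟨β, δ, max (max T₀ 0) T₁, hβ, hδ0, hT2, ?_, ?_⟩
  · rintro a ⟨s, hs, hs2⟩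
    refine ⟨s, hT1.trans hs, fun i => ?_⟩
    have hs0 : 0 ≤ s := hT2.trans hs
    have h1 : Real.log (a i) - s * α₀ i = (Real.log (a i) - s * β i) + s * (β i - α₀ i) := by
      ring
    rw [h1]
    refine (abs_add_le _ _).trans ?_
    rw [abs_mul, abs_of_nonneg hs0]
    have h2 := hs2 i
    have h3 := mul_le_mul_of_nonneg_left (hβα i) hs0
    have h4 := mul_le_mul_of_nonneg_right hδ1 hs0
    linarith
  · rintro a ha ⟨s, hs, hs2⟩
    have hs0 : 0 ≤ s := hT2.trans hs
    have hsη : 4 + 2 * n ≤ s * η := by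
      have := hT3.trans hs
      rwa [hT₁, div_le_iff₀ hη] at this
    have hδs : δ * s * (4 * (n + 1)) ≤ s * η := by
      have := mul_le_mul_of_nonneg_left hδ2 hs0
      nlinarith
    refine ⟨fun i j hij => ?_, fun I hI hIu => ?_⟩
    · have h2 : 2 ≤ |Real.log (a i) - Real.log (a j)| := by
        have h3 := hs2 i
        have h4 := hs2 j
        have h5 := hη2 i j hij
        have h7 : s * |β i - β j| ≤ |Real.log (a i) - Real.log (a j)| +
            (|Real.log (a i) - s * β i| + |Real.log (a j) - s * β j|) := by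
          have h8 : s * (β i - β j) = (Real.log (a i) - Real.log (a j)) +
              (-(Real.log (a i) - s * β i) + (Real.log (a j) - s * β j)) := by ring
          have h9 : s * |β i - β j| = |s * (β i - β j)| := by rw [abs_mul, abs_of_nonneg hs0]
          rw [h9, h8]
          refine (abs_add_le _ _).trans (add_le_add le_rfl ?_)
          refine (abs_add_le _ _).trans ?_
          rw [abs_neg]
        have h10 := mul_le_mul_of_nonneg_left h5 hs0
        have h11 : 0 ≤ δ * s := by positivity
        nlinarith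
      have h4 : Real.log 4 ≤ 2 := by
        have h5 : (4 : ℝ) = 2 ^ 2 := by norm_num
        rw [h5, Real.log_pow]
        have := Real.log_two_lt_d9
        push_cast
        linarith
      rcases le_abs.1 h2 with h | h
      · right
        have h5 : Real.log (4 * a j) ≤ Real.log (a i) := by
          rw [Real.log_mul (by norm_num) (ha j).ne']
          linarith
        exact (Real.log_le_log_iff (mul_pos (by norm_num) (ha j)) (ha i)).1 h5
      · left
        have h5 : Real.log (4 * a i) ≤ Real.log (a j) := by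
          rw [Real.log_mul (by norm_num) (ha i).ne']
          linarith
        exact (Real.log_le_log_iff (mul_pos (by norm_num) (ha i)) (ha j)).1 h5
    · have h3 : s * ∑ k ∈ I, β k = ∑ k ∈ I, Real.log (a k) -
          ∑ k ∈ I, (Real.log (a k) - s * β k) := by
        rw [Finset.sum_sub_distrib, ← Finset.mul_sum]
        ring
      have h4 : |∑ k ∈ I, (Real.log (a k) - s * β k)| ≤ n * (δ * s) := by
        refine (Finset.abs_sum_le_sum_abs _ _).trans ?_
        refine (Finset.sum_le_sum fun k _ => hs2 k).trans ?_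
        rw [Finset.sum_const, nsmul_eq_mul]
        have h7 : ((I.card : ℕ) : ℝ) ≤ n := by
          have h8 := Finset.card_le_univ I
          rw [Fintype.card_fin] at h8
          exact_mod_cast h8
        exact mul_le_mul_of_nonneg_right h7 (by positivity)
      have h5 : s * |∑ k ∈ I, β k| ≤ |∑ k ∈ I, Real.log (a k)| + n * (δ * s) := by
        have h9 : s * |∑ k ∈ I, β k| = |s * ∑ k ∈ I, β k| := by
          rw [abs_mul, abs_of_nonneg hs0]
        rw [h9, h3]
        exact (abs_sub _ _).trans (add_le_add le_rfl h4)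
      have h6 := mul_le_mul_of_nonneg_left (hη3 I hI hIu) hs0
      have h7 : Real.log 2 < 1 := by
        have := Real.log_two_lt_d9
        linarith
      have h8 : (n : ℝ) * Real.log 2 ≤ n := by nlinarith
      nlinarith

end Pool.Agent.H202.EF
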