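import Mathlib
import Pool.Agent.H202.ZR.Stab

/-!
# The block matrices of determinant one form an irreducible variety
-/

set_option autoImplicit false

open Matrix Finset

namespace Pool.Agent.H202.EF

open Pool.Agent.H202.ZR

variable {n : ℕ}

/-- homogenization with the determinant -/
lemma exists_tilde (i₀ : Fin n) {f : Matrix (Fin n) (Fin n) ℝ → ℝ} (hf : f ∈ PF n) :
    ∃ F ∈ PF n, ∃ K : ℕ, ∀ Y : Matrix (Fin n) (Fin n) ℝ, Y.det ≠ 0 →
      F Y = Y.det ^ K * f (diagonal (Function.update (fun _ => (1 : ℝ)) i₀ (Y.det)⁻¹) * Y) := by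
  classical
  obtain ⟨T, K, g, hT, hg, hgH, hfg⟩ := exists_hom_det i₀ (one_ne_zero (α := ℝ)) hf
  refine ⟨fun Y => ∑ q ∈ T, g q Y, PF_sum _ fun q _ => hg q, K, fun Y hY => ?_⟩
  set b : Fin n → ℝ := Function.update (fun _ => (1 : ℝ)) i₀ (Y.det)⁻¹ with hb
  have hdetb : ∏ i, b i = (Y.det)⁻¹ := by
    rw [Finset.prod_eq_single i₀]
    · rw [hb, Function.update_self]
    · intro j _ hj
      rw [hb, Function.update_of_ne hj]
    · intro h
      exact absurd (Finset.mem_univ _) h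
  rw [hfg (diagonal b * Y) (by
    rw [Matrix.det_mul, Matrix.det_diagonal, hdetb, inv_mul_cancel₀ hY]), Finset.mul_sum]
  refine Finset.sum_congr rfl fun q hq => ?_
  rw [hgH q b Y]
  have h1 : ∏ i, b i ^ q i = ((Y.det)⁻¹) ^ K := by
    rw [Finset.prod_eq_single i₀]
    · rw [hb, Function.update_self, hT q hq]
    · intro j _ hj
      rw [hb, Function.update_of_ne hj, one_pow]
    · intro h
      exact absurd (Finset.mem_univ _) h
  rw [h1, ← mul_assoc, ← mul_pow, mul_inv_cancel₀ hY, one_pow, one_mul]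

/-- two polynomial functions which are not zero have a common non-zero -/
lemma exists_two (i₀ : Fin n) {R : Fin n → Fin n → Prop}
    {f₁ f₂ : Matrix (Fin n) (Fin n) ℝ → ℝ}
    (hf₁ : f₁ ∈ PF n) (hf₂ : f₂ ∈ PF n) {X₁ X₂ : Matrix (Fin n) (Fin n) ℝ}
    (h₁ : X₁.det = 1) (h₂ : X₂.det = 1) (hB₁ : Bl R X₁) (hB₂ : Bl R X₂) (hX₁ : f₁ X₁ ≠ 0)
    (hX₂ : f₂ X₂ ≠ 0) : ∃ X : Matrix (Fin n) (Fin n) ℝ, X.det = 1 ∧ Bl R X ∧ f₁ X ≠ 0 ∧
      f₂ X ≠ 0 := by
  classical
  obtain ⟨F₁, hF₁, K₁, hF₁'⟩ := exists_tilde i₀ hf₁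
  obtain ⟨F₂, hF₂, K₂, hF₂'⟩ := exists_tilde i₀ hf₂
  have hone : ∀ X : Matrix (Fin n) (Fin n) ℝ, X.det = 1 →
      diagonal (Function.update (fun _ => (1 : ℝ)) i₀ (X.det)⁻¹) * X = X := by
    intro X hX
    rw [hX, inv_one]
    have h1 : Function.update (fun _ : Fin n => (1 : ℝ)) i₀ 1 = fun _ => 1 := by
      funext j
      by_cases hj : j = i₀
      · subst hj
        rw [Function.update_self]
      · rw [Function.update_of_ne hj]
    rw [h1]
    have h4 : (diagonal fun _ : Fin n => (1 : ℝ)) = 1 := Matrix.diagonal_one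
    rw [h4, Matrix.one_mul]
  have hF1X : F₁ X₁ ≠ 0 := by
    rw [hF₁' X₁ (by rw [h₁]; exact one_ne_zero), hone X₁ h₁, h₁, one_pow, one_mul]
    exact hX₁
  have hF2X : F₂ X₂ ≠ 0 := by
    rw [hF₂' X₂ (by rw [h₂]; exact one_ne_zero), hone X₂ h₂, h₂, one_pow, one_mul]
    exact hX₂
  obtain ⟨p, hp⟩ := PF_line hF₁ X₁ (X₂ - X₁)
  obtain ⟨r, hr⟩ := PF_line hF₂ X₁ (X₂ - X₁)
  obtain ⟨w, hw⟩ := PF_line (PF_det (n := n)) X₁ (X₂ - X₁)
  have hp0 : p ≠ 0 := by
    rintro rfl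
    have h1 := hp 0
    rw [zero_smul, add_zero, Polynomial.eval_zero] at h1
    exact hF1X h1
  have hr0 : r ≠ 0 := by
    rintro rfl
    have h1 := hr 1
    rw [one_smul, add_sub_cancel, Polynomial.eval_zero] at h1
    exact hF2X h1
  have hw0 : w ≠ 0 := by
    rintro rfl
    have h1 := hw 0
    rw [zero_smul, add_zero, Polynomial.eval_zero, h₁] at h1
    exact one_ne_zero h1
  have hprod : p * r * w ≠ 0 := mul_ne_zero (mul_ne_zero hp0 hr0) hw0
  obtain ⟨t, ht⟩ : ∃ t : ℝ, (p * r * w).eval t ≠ 0 := by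
    by_contra hcon
    push Not at hcon
    exact hprod (Polynomial.funext fun t => by rw [hcon t, Polynomial.eval_zero])
  rw [Polynomial.eval_mul, Polynomial.eval_mul] at ht
  set Y : Matrix (Fin n) (Fin n) ℝ := X₁ + t • (X₂ - X₁) with hY
  have hYdet : Y.det ≠ 0 := by
    have h1 := hw t
    rw [h1]
    exact right_ne_zero_of_mul ht
  have hYp : F₁ Y ≠ 0 := by
    rw [hp t]
    exact left_ne_zero_of_mul (left_ne_zero_of_mul ht)
  have hYr : F₂ Y ≠ 0 := by
    rw [hr t]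
    exact right_ne_zero_of_mul (left_ne_zero_of_mul ht)
  refine ⟨diagonal (Function.update (fun _ => (1 : ℝ)) i₀ (Y.det)⁻¹) * Y, ?_, ?_, ?_, ?_⟩
  · rw [Matrix.det_mul, Matrix.det_diagonal, Finset.prod_eq_single i₀]
    · rw [Function.update_self, inv_mul_cancel₀ hYdet]
    · intro j _ hj
      rw [Function.update_of_ne hj]
    · intro h
      exact absurd (Finset.mem_univ _) h
  · intro i j hij
    rw [Matrix.diagonal_mul, hY, Matrix.add_apply, Matrix.smul_apply, Matrix.sub_apply,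
      hB₁ i j hij, hB₂ i j hij]
    simp
  · intro h
    rw [hF₁' Y hYdet, h, mul_zero] at hYp
    exact hYp rfl
  · intro h
    rw [hF₂' Y hYdet, h, mul_zero] at hYr
    exact hYr rfl

/-- finitely many polynomial functions which are not zero have a common non-zero -/
theorem exists_common (i₀ : Fin n) {R : Fin n → Fin n → Prop} (hR : Equivalence R) {ι : Type*}
    (s : Finset ι) {f : ι → Matrix (Fin n) (Fin n) ℝ → ℝ} (hf : ∀ k ∈ s, f k ∈ PF n)
    (h : ∀ k ∈ s, ∃ X : Matrix (Fin n) (Fin n) ℝ, X.det = 1 ∧ Bl R X ∧ f k X ≠ 0) :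
    ∃ X : Matrix (Fin n) (Fin n) ℝ, X.det = 1 ∧ Bl R X ∧ ∀ k ∈ s, f k X ≠ 0 := by
  classical
  induction s using Finset.induction_on with
  | empty =>
    refine ⟨1, Matrix.det_one, fun i j hij => ?_, by simp⟩
    apply Matrix.one_apply_ne
    rintro rfl
    exact hij (hR.refl _)
  | insert a s ha ih =>
    obtain ⟨X, hX, hXB, hXs⟩ := ih (fun k hk => hf k (Finset.mem_insert_of_mem hk))
      (fun k hk => h k (Finset.mem_insert_of_mem hk))
    obtain ⟨X', hX', hXB', hXa⟩ := h a (Finset.mem_insert_self _ _)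
    obtain ⟨Z, hZ, hZB, hZa, hZs⟩ := exists_two i₀ (hf a (Finset.mem_insert_self _ _))
      (PF_prod s (f := f) fun k hk => hf k (Finset.mem_insert_of_mem hk)) hX' hX hXB' hXB hXa
      (Finset.prod_ne_zero_iff.2 hXs)
    refine ⟨Z, hZ, hZB, fun k hk => ?_⟩
    rcases Finset.mem_insert.1 hk with rfl | hk
    · exact hZa
    · exact Finset.prod_ne_zero_iff.1 hZs k hk

end Pool.Agent.H202.EF
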