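import Mathlib
import Pool.Agent.H202.EF.Irr
import Pool.Agent.H202.EF.Adj
import Pool.Agent.H202.EF.Field
import Pool.Agent.H202.EF.Dir

/-!
# The eigenvalues of the near returns do not lie in a number field
-/

set_option autoImplicit false

open Matrix Finset

namespace Pool.Agent.H202.EF

open Pool.Agent.H202.ZR

variable {n : ℕ}

/-- the real matrix -/
def rR (γ : Matrix (Fin n) (Fin n) ℤ) : Matrix (Fin n) (Fin n) ℝ := γ.map (Int.cast : ℤ → ℝ)

lemma rR_mul (γ γ' : Matrix (Fin n) (Fin n) ℤ) : rR (γ * γ') = rR γ * rR γ' :=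
  Matrix.map_mul_intCast _ _

lemma rR_one : rR (1 : Matrix (Fin n) (Fin n) ℤ) = 1 := by
  ext i j
  unfold rR
  rw [Matrix.map_apply, Matrix.one_apply, Matrix.one_apply]
  split_ifs <;> simp

lemma rR_det (γ : Matrix (Fin n) (Fin n) ℤ) : (rR γ).det = ((γ.det : ℤ) : ℝ) :=
  (Int.cast_det (R := ℝ) γ).symm

lemma Bl_mul {R : Fin n → Fin n → Prop} (hR : Equivalence R) {X Y : Matrix (Fin n) (Fin n) ℝ}
    (hX : Bl R X) (hY : Bl R Y) : Bl R (X * Y) := by
  intro i j hij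
  rw [Matrix.mul_apply]
  refine Finset.sum_eq_zero fun k _ => ?_
  by_cases hik : R i k
  · rw [hY k j (fun h => hij (hR.trans hik h)), mul_zero]
  · rw [hX i k hik, zero_mul]

/-- the form of a near return in the frame -/
lemma Nr_frame {L : Matrix (Fin n) (Fin n) ℝ} {e : ℝ} {a : Fin n → ℝ}
    {γ : Matrix (Fin n) (Fin n) ℤ} (h : Nr L e a γ) : ∃ E : Matrix (Fin n) (Fin n) ℝ,
      (∀ i j, |E i j| < e) ∧
      L * γ.map (Int.cast : ℤ → ℝ) = diagonal (fun i => (a i)⁻¹) * (1 + E) * L := by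
  obtain ⟨ha, -, -, E, hE, hE2⟩ := h
  refine ⟨E, hE, ?_⟩
  have h1 : diagonal (fun i => (a i)⁻¹) * diagonal a = 1 := by
    rw [Matrix.diagonal_mul_diagonal]
    have h2 : (fun i => (a i)⁻¹ * a i) = fun _ => (1 : ℝ) := by
      funext i
      exact inv_mul_cancel₀ (ha i).ne'
    rw [h2]
    exact Matrix.diagonal_one
  calc L * γ.map (Int.cast : ℤ → ℝ) =
        (diagonal (fun i => (a i)⁻¹) * diagonal a) * (L * γ.map (Int.cast : ℤ → ℝ)) := by
          rw [h1, Matrix.one_mul]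
    _ = diagonal (fun i => (a i)⁻¹) * (diagonal a * L * γ.map (Int.cast : ℤ → ℝ)) := by
          simp only [Matrix.mul_assoc]
    _ = _ := by
          rw [hE2]
          simp only [Matrix.mul_assoc]

/-- **The eigenvalues of the near returns in a cone do not lie in a number field.** -/
theorem main (hn : 0 < n) {L : Matrix (Fin n) (Fin n) ℝ} (hL : L.det ≠ 0)
    {R : Fin n → Fin n → Prop} (hR : Equivalence R) (hcls : ∀ i, ∃ j, j ≠ i ∧ R i j)
    (hcl : ∀ (α : Fin n → ℝ) (δ T ε : ℝ), ∑ i, α i = 0 → 0 < δ → 0 < ε → ∀ f ∈ PF n,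
      (∀ a γ, Nr L ε a γ → Cn α δ T a → f (rR γ) = 0) →
      ∀ g : Matrix (Fin n) (Fin n) ℝ, g.det = 1 → Bl R (L * g * L⁻¹) → f g = 0)
    (hbl : ∃ ε : ℝ, 0 < ε ∧ ∀ a γ, Nr L ε a γ → Bl R (L * rR γ * L⁻¹))
    {α₀ : Fin n → ℝ} {δ₀ T₀ e₀ : ℝ} (hα₀ : ∑ i, α₀ i = 0) (hδ₀ : 0 < δ₀) (he₀ : 0 < e₀)
    {K : Type} [Field K] [NumberField K] (ι : K →+* ℝ)
    (hK : ∀ a γ, Nr L e₀ a γ → Cn α₀ δ₀ T₀ a →
      ∃ x : K, (γ.map (Int.cast : ℤ → ℝ) - ι x • 1).det = 0) : False := by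
  classical
  have hLu : IsUnit L.det := isUnit_iff_ne_zero.2 hL
  have hLL : L * L⁻¹ = 1 := Matrix.mul_nonsing_inv _ hLu
  have hLL' : L⁻¹ * L = 1 := Matrix.nonsing_inv_mul _ hLu
  have hone : Bl R (1 : Matrix (Fin n) (Fin n) ℝ) := by
    intro i j hij
    apply Matrix.one_apply_ne
    rintro rfl
    exact hij (hR.refl _)
  set e : ℝ := min e₀ (1 / (8 * (n + 1))) with he
  have he0 : 0 < e := lt_min he₀ (by positivity)
  obtain ⟨α, δ, T, hα, hδ, hT, hcone, hsep⟩ := exists_cone hn hα₀ (T₀ := T₀) hδ₀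
  obtain ⟨ε₁, hε₁, hbl⟩ := hbl
  set G : Matrix (Fin n) (Fin n) ℤ → Prop := fun γ => Bl R (L * rR γ * L⁻¹) with hG
  have hGmul : ∀ x y, G x → G y → G (x * y) := by
    intro x y hx hy
    have h1 : L * rR (x * y) * L⁻¹ = (L * rR x * L⁻¹) * (L * rR y * L⁻¹) := by
      rw [rR_mul]
      calc L * (rR x * rR y) * L⁻¹ = L * rR x * 1 * rR y * L⁻¹ := by
            simp only [Matrix.mul_assoc, Matrix.one_mul]
        _ = _ := by
            rw [← hLL']
            simp only [Matrix.mul_assoc]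
    show Bl R (L * rR (x * y) * L⁻¹)
    rw [h1]
    exact Bl_mul hR hx hy
  have hret : ∀ ε : ℝ, 0 < ε → ∃ a γ, Nr L ε a γ ∧ Cn α δ T a ∧ G γ := by
    intro ε hε
    by_contra hcon
    push Not at hcon
    have h1 := hcl α δ T (min ε ε₁) hα hδ (lt_min hε hε₁) (fun _ => 1) (const_mem 1)
      (fun a γ hN hC => by
        exact absurd (hbl a γ (hN.mono (min_le_right _ _)))
          (hcon a γ (hN.mono (min_le_left _ _)) hC)) 1 Matrix.det_one
      (by rw [Matrix.mul_one, hLL]; exact hone)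
    exact one_ne_zero h1
  set k : ℕ := Fintype.card ((K →+* ℂ) → Fin n) with hk
  obtain ⟨b, y, h1, h2⟩ := exists_chain (L := L) he0 (α := α) (δ := δ) hT hGmul hret k
  have hbpos : ∀ j ≤ k, ∀ l, 0 < b j l := fun j hj => (h1 j hj).1.1
  have hydet : ∀ j ≤ k, (y j).det = 1 := fun j hj => (h1 j hj).1.2.2.1
  obtain ⟨ε₂, hε₂, hε₂2⟩ := exists_min
    (P := fun j ε => ∀ (a₁ : Fin n → ℝ) (γ₁ : Matrix (Fin n) (Fin n) ℤ), Nr L ε a₁ γ₁ →
      Nr L e (fun l => a₁ l * b j l) (γ₁ * y j))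
    (fun i ε ε' _ hle h a₁ γ₁ hN => h a₁ γ₁ (hN.mono hle)) (k + 1)
    (fun i hi => Nr_comp he0 (h1 i (by omega)).1)
  -- the finite set of the quotients
  set B : ℝ := ∑ i ∈ Finset.range (k + 1), ∑ j ∈ Finset.range (k + 1), ∑ l,
    4 * (b i l / b j l) with hB
  have hBij : ∀ i ≤ k, ∀ j ≤ k, ∀ l, 4 * (b i l / b j l) ≤ B := by
    intro i hi j hj l
    have hpos : ∀ i ∈ Finset.range (k + 1), ∀ j ∈ Finset.range (k + 1), ∀ l,
        0 ≤ 4 * (b i l / b j l) := by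
      intro i hi j hj l
      rw [Finset.mem_range] at hi hj
      exact mul_nonneg (by norm_num) (div_pos (hbpos i (by omega) l) (hbpos j (by omega) l)).le
    have hi' : i ∈ Finset.range (k + 1) := Finset.mem_range.2 (by omega)
    have hj' : j ∈ Finset.range (k + 1) := Finset.mem_range.2 (by omega)
    calc 4 * (b i l / b j l) ≤ ∑ l, 4 * (b i l / b j l) :=
          Finset.single_le_sum (f := fun l => 4 * (b i l / b j l))
            (fun l _ => hpos i hi' j hj' l) (Finset.mem_univ l)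
      _ ≤ ∑ j ∈ Finset.range (k + 1), ∑ l, 4 * (b i l / b j l) :=
          Finset.single_le_sum (f := fun j => ∑ l, 4 * (b i l / b j l))
            (fun j hj => Finset.sum_nonneg fun l _ => hpos i hi' j hj l) hj'
      _ ≤ B := Finset.single_le_sum
            (f := fun i => ∑ j ∈ Finset.range (k + 1), ∑ l, 4 * (b i l / b j l))
            (fun i hi => Finset.sum_nonneg fun j hj => Finset.sum_nonneg fun l _ =>
              hpos i hi j hj l) hi'
  have hQfin : {q : K | IsIntegral ℤ q ∧ ∀ σ : K →+* ℂ, ‖σ q‖ ≤ B}.Finite :=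
    NumberField.Embeddings.finite_of_norm_le K ℂ B
  have hSfin : {p : ℕ × ℕ × K | p.1 < p.2.1 ∧ p.2.1 ≤ k ∧ p.2.2 ≠ 0 ∧
      IsIntegral ℤ p.2.2 ∧ ∀ σ : K →+* ℂ, ‖σ p.2.2‖ ≤ B}.Finite := by
    refine (((Set.finite_Iic k).prod ((Set.finite_Iic k).prod hQfin))).subset ?_
    rintro ⟨i, j, q⟩ ⟨hij, hj, -, hq1, hq2⟩
    simp only at hij hj hq1 hq2
    exact ⟨Set.mem_Iic.2 (by simp only; omega), Set.mem_Iic.2 hj, hq1, hq2⟩
  set s : Finset (ℕ × ℕ × K) := hSfin.toFinset with hs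
  have hmem : ∀ p : ℕ × ℕ × K, p ∈ s ↔ p.1 < p.2.1 ∧ p.2.1 ≤ k ∧ p.2.2 ≠ 0 ∧
      IsIntegral ℤ p.2.2 ∧ ∀ σ : K →+* ℂ, ‖σ p.2.2‖ ≤ B := by
    intro p
    rw [hs, Set.Finite.mem_toFinset]
    rfl
  set f : ℕ × ℕ × K → Matrix (Fin n) (Fin n) ℝ → ℝ := fun p Y =>
    KP (ι p.2.2) (Y * rR (y p.1)) (Y * rR (y p.2.1)) with hf
  have hfPF : ∀ p, f p ∈ PF n := fun p => KP_mem _ _ _
  -- one of the functions vanishes at each precise near return
  have hvan : ∀ a γ, Nr L ε₂ a γ → Cn α δ T a → ∏ p ∈ s, f p (rR γ) = 0 := by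
    intro a γ hN hC
    have hN' : ∀ j : Fin (k + 1), Nr L e (fun l => a l * b j l) (γ * y j) := fun j =>
      hε₂2 j j.2 a γ hN
    have hC' : ∀ j : Fin (k + 1), Cn α₀ δ₀ T₀ (fun l => a l * b j l) := fun j =>
      hcone _ (hC.mul hT hN.1 (hbpos j (by omega)) (h1 j (by omega)).2.1)
    have hx : ∀ j : Fin (k + 1), ∃ x : K,
        ((γ * y j).map (Int.cast : ℤ → ℝ) - ι x • 1).det = 0 := fun j =>
      hK _ _ ((hN' j).mono (min_le_left _ _)) (hC' j)
    choose x hx using hx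
    have hloc : ∀ (j : Fin (k + 1)) (σ : K →+* ℂ), ∃ l : Fin n,
        (a l * b j l)⁻¹ / 2 ≤ ‖σ (x j)‖ ∧ ‖σ (x j)‖ ≤ 2 * (a l * b j l)⁻¹ := by
      intro j σ
      obtain ⟨E, hE, hE2⟩ := Nr_frame (hN' j)
      exact loc hL (D := fun l => (a l * b j l)⁻¹) (fun l => inv_pos.2 ((hN' j).1 l))
        (fun i l => (hE i l).le.trans (min_le_right _ _)) hE2
        (conj_eigen ι ι.injective σ (hx j)).2
    choose κ hκ1 hκ2 using hloc
    obtain ⟨i, j, hij, hκ⟩ := Fintype.exists_ne_map_eq_of_card_lt κ (by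
      rw [Fintype.card_fin, ← hk]
      omega)
    have key : ∀ i j : Fin (k + 1), i < j → κ i = κ j → ∏ p ∈ s, f p (rR γ) = 0 := by
      intro i j hij hκ
      have hxi := conj_eigen ι ι.injective (RingHom.id K) (hx i)
      have hxj := conj_eigen ι ι.injective (RingHom.id K) (hx j)
      have hinv : ∀ j : Fin (k + 1), (γ * y j).det = 1 := fun j => (hN' j).2.2.1
      obtain ⟨hxi0, hxiI⟩ := eigen_inv (hinv i) hxi.1
      obtain ⟨hxj0, -⟩ := eigen_inv (hinv j) hxj.1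
      have hq : ∀ σ : K →+* ℂ, ‖σ (x j / x i)‖ ≤ B := by
        intro σ
        set l := κ i σ with hl
        have h3 := hκ1 i σ
        have h4 := hκ2 j σ
        rw [← hκ, ← hl] at h4
        rw [← hl] at h3
        have hal := hN.1 l
        have hbi := hbpos i (by omega) l
        have hbj := hbpos j (by omega) l
        rw [map_div₀, norm_div]
        have h5 : 0 < (a l * b i l)⁻¹ / 2 := by positivity
        have h6 : ‖σ (x j)‖ / ‖σ (x i)‖ ≤ 2 * (a l * b j l)⁻¹ / ((a l * b i l)⁻¹ / 2) :=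
          div_le_div₀ (by positivity) h4 h5 h3
        refine h6.trans (le_trans (le_of_eq ?_) (hBij i (by omega) j (by omega) l))
        field_simp
        ring
      have hp : ((i : ℕ), (j : ℕ), x j / x i) ∈ s := by
        rw [hmem]
        refine ⟨hij, by simp only; omega, div_ne_zero hxj0 hxi0, ?_, hq⟩
        simp only
        rw [div_eq_mul_inv]
        exact (eigen_integral hxj.1).mul hxiI
      refine Finset.prod_eq_zero hp ?_
      simp only [hf]
      rw [← rR_mul, ← rR_mul]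
      refine KP_zero_of_eigen (lam := ι (x i)) (mu := ι (x j)) ?_ (hx i) (hx j)
      rw [map_div₀, div_mul_cancel₀]
      exact (map_ne_zero ι).2 hxi0
    rcases lt_or_gt_of_ne hij with h | h
    · exact key i j h hκ
    · exact key j i h hκ.symm
  have hvan2 : ∀ g : Matrix (Fin n) (Fin n) ℝ, g.det = 1 → Bl R (L * g * L⁻¹) →
      ∏ p ∈ s, f p g = 0 := fun g hg hgB =>
    hcl α δ T ε₂ hα hδ hε₂ (fun Y => ∏ p ∈ s, f p Y) (PF_prod s fun p _ => hfPF p) hvan g hg hgB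
  -- all the functions are different from zero somewhere
  have hconj : ∀ {h : Matrix (Fin n) (Fin n) ℝ → ℝ}, h ∈ PF n →
      (fun X => h (L⁻¹ * X * L)) ∈ PF n := by
    intro h hh
    refine PF_comp hh fun i j => ?_
    have h3 : (fun Y : Matrix (Fin n) (Fin n) ℝ => (L⁻¹ * Y * L) i j) =
        fun Y => ∑ l, L⁻¹ i l * (Y * L) l j := by
      funext Y
      rw [Matrix.mul_assoc, Matrix.mul_apply]
    rw [h3]
    exact PF_sum _ fun l _ => PF_mul (const_mem _) (PF_mul_right L l j)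
  obtain ⟨X, hX, hXB, hXs⟩ := exists_common (⟨0, hn⟩ : Fin n) hR s
    (f := fun p X => f p (L⁻¹ * X * L)) (fun p _ => hconj (hfPF p)) (by
    rintro ⟨i, j, q⟩ hp
    obtain ⟨hij, hj, hq0, -, -⟩ := (hmem _).1 hp
    simp only at hij hj hq0
    have hi : i ≤ k := by omega
    set z : Matrix (Fin n) (Fin n) ℤ := y j * (y i)⁻¹ with hz
    have hNz := (h2 i j hij hj).1
    obtain ⟨E, hE, hE2⟩ := Nr_frame hNz
    have hyi : IsUnit (y i).det := by rw [hydet i hi]; exact isUnit_one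
    set Yi : Matrix (Fin n) (Fin n) ℝ := L * rR (y i) * L⁻¹ with hYi
    set Z : Matrix (Fin n) (Fin n) ℝ := L * rR z * L⁻¹ with hZ
    have hyy : rR (y i) * rR (y i)⁻¹ = 1 := by
      rw [← rR_mul, Matrix.mul_nonsing_inv _ hyi, rR_one]
    have hyy' : rR (y i)⁻¹ * rR (y i) = 1 := by
      rw [← rR_mul, Matrix.nonsing_inv_mul _ hyi, rR_one]
    have hYdet : Yi.det = 1 := by
      rw [hYi, Matrix.det_mul, Matrix.det_mul, rR_det, hydet i hi, Matrix.det_nonsing_inv,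
        Ring.inverse_eq_inv', Int.cast_one, mul_one, mul_inv_cancel₀ hL]
    have hYu : IsUnit Yi.det := by rw [hYdet]; exact isUnit_one
    have hYinv : Yi⁻¹ = L * rR (y i)⁻¹ * L⁻¹ := by
      refine Matrix.inv_eq_right_inv ?_
      rw [hYi]
      calc L * rR (y i) * L⁻¹ * (L * rR (y i)⁻¹ * L⁻¹) =
            L * rR (y i) * (L⁻¹ * L) * rR (y i)⁻¹ * L⁻¹ := by simp only [Matrix.mul_assoc]
        _ = L * (rR (y i) * rR (y i)⁻¹) * L⁻¹ := by
            rw [hLL', Matrix.mul_one]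
            simp only [Matrix.mul_assoc]
        _ = 1 := by rw [hyy, Matrix.mul_one, hLL]
    have hYinvB : Bl R Yi⁻¹ := Bl_inv hR hYu (h1 i hi).2.2
    have hZdet : Z.det = 1 := by
      rw [hZ, Matrix.det_mul, Matrix.det_mul, rR_det, hNz.2.2.1, Matrix.det_nonsing_inv,
        Ring.inverse_eq_inv', Int.cast_one, mul_one, mul_inv_cancel₀ hL]
    have hZB : Bl R Z := by
      have h3 : Z = (L * rR (y j) * L⁻¹) * Yi⁻¹ := by
        rw [hYinv, hZ, hz, rR_mul]
        calc L * (rR (y j) * rR (y i)⁻¹) * L⁻¹ = L * rR (y j) * 1 * rR (y i)⁻¹ * L⁻¹ := by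
              simp only [Matrix.mul_assoc, Matrix.one_mul]
          _ = _ := by
              rw [← hLL']
              simp only [Matrix.mul_assoc]
      rw [h3]
      exact Bl_mul hR (h1 j hj).2.2 hYinvB
    have hZE : ∀ a c, Z a c = (b j a / b i a)⁻¹ *
        ((1 : Matrix (Fin n) (Fin n) ℝ) a c + E a c) := by
      intro a c
      have h3 : Z = diagonal (fun l => (b j l / b i l)⁻¹) * (1 + E) := by
        have h4 : L * rR z = diagonal (fun l => (b j l / b i l)⁻¹) * (1 + E) * L := hE2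
        rw [hZ, h4, Matrix.mul_assoc, hLL, Matrix.mul_one]
      rw [h3, Matrix.diagonal_mul, Matrix.add_apply]
    have hDpos : ∀ l, 0 < b j l / b i l := fun l => div_pos (hbpos j hj l) (hbpos i hi l)
    obtain ⟨X₀, hX₀, hX₀B, hX₀K⟩ := exists_good hR hcls hZdet hZB
      (D := fun l => (b j l / b i l)⁻¹) (fun l => inv_pos.2 (hDpos l))
      (fun a c => (hE a c).le.trans (min_le_right _ _)) hZE (fun l m hlm => by
        rcases hsep _ hDpos (h2 i j hij hj).2 l m hlm with h | h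
        · right
          rw [← div_eq_mul_inv, div_le_iff₀ (hDpos m), inv_mul_eq_div, le_div_iff₀ (hDpos l)]
          exact h
        · left
          rw [← div_eq_mul_inv, div_le_iff₀ (hDpos l), inv_mul_eq_div, le_div_iff₀ (hDpos m)]
          exact h)
      (q := ι q) ((map_ne_zero ι).2 hq0)
    refine ⟨Yi⁻¹ * X₀, ?_, Bl_mul hR hYinvB hX₀B, fun h0 => hX₀K ?_⟩
    · rw [Matrix.det_mul, hX₀, mul_one, Matrix.det_nonsing_inv, hYdet, Ring.inverse_one]
    · have e1 : L⁻¹ * (Yi⁻¹ * X₀) * L = rR (y i)⁻¹ * L⁻¹ * X₀ * L := by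
        rw [hYinv]
        calc L⁻¹ * (L * rR (y i)⁻¹ * L⁻¹ * X₀) * L =
              (L⁻¹ * L) * rR (y i)⁻¹ * L⁻¹ * X₀ * L := by simp only [Matrix.mul_assoc]
          _ = _ := by rw [hLL', Matrix.one_mul]
      have h3 : KP (ι q) (rR (y i)⁻¹ * L⁻¹ * X₀ * L * rR (y i))
          (rR (y i)⁻¹ * L⁻¹ * X₀ * L * rR (y j)) = 0 := by
        have h4 : f (i, j, q) (L⁻¹ * (Yi⁻¹ * X₀) * L) = 0 := h0
        rw [e1] at h4
        exact h4
      have h4 := KP_conj (P := L * rR (y i)) (Q := rR (y i)⁻¹ * L⁻¹) (by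
        calc rR (y i)⁻¹ * L⁻¹ * (L * rR (y i)) = rR (y i)⁻¹ * (L⁻¹ * L) * rR (y i) := by
              simp only [Matrix.mul_assoc]
          _ = 1 := by rw [hLL', Matrix.mul_one, hyy']) h3
      have e2 : L * rR (y i) * (rR (y i)⁻¹ * L⁻¹ * X₀ * L * rR (y i)) *
          (rR (y i)⁻¹ * L⁻¹) = X₀ := by
        calc _ = L * (rR (y i) * rR (y i)⁻¹) * L⁻¹ * X₀ * L *
              (rR (y i) * rR (y i)⁻¹) * L⁻¹ := by simp only [Matrix.mul_assoc]
          _ = (L * L⁻¹) * X₀ * (L * L⁻¹) := by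
              rw [hyy, Matrix.mul_one, Matrix.mul_one]
              simp only [Matrix.mul_assoc]
          _ = X₀ := by rw [hLL, Matrix.one_mul, Matrix.mul_one]
      have e3 : L * rR (y i) * (rR (y i)⁻¹ * L⁻¹ * X₀ * L * rR (y j)) *
          (rR (y i)⁻¹ * L⁻¹) = X₀ * Z := by
        calc _ = L * (rR (y i) * rR (y i)⁻¹) * L⁻¹ * X₀ * (L *
              (rR (y j) * rR (y i)⁻¹) * L⁻¹) := by simp only [Matrix.mul_assoc]
          _ = X₀ * Z := by
              rw [hyy, Matrix.mul_one, hLL, Matrix.one_mul, hZ, hz, rR_mul]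
      rw [e2, e3] at h4
      exact h4)
  have hg1 : (L⁻¹ * X * L).det = 1 := by
    rw [Matrix.det_mul, Matrix.det_mul, hX, mul_one, Matrix.det_nonsing_inv,
      Ring.inverse_eq_inv', inv_mul_cancel₀ hL]
  have hg2 : L * (L⁻¹ * X * L) * L⁻¹ = X := by
    calc L * (L⁻¹ * X * L) * L⁻¹ = (L * L⁻¹) * X * (L * L⁻¹) := by simp only [Matrix.mul_assoc]
      _ = X := by rw [hLL, Matrix.one_mul, Matrix.mul_one]
  have h3 := hvan2 (L⁻¹ * X * L) hg1 (by rw [hg2]; exact hXB)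
  exact (Finset.prod_ne_zero_iff.2 hXs) h3

end Pool.Agent.H202.EF
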