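import Mathlib

/-!
# Integral polynomials with real roots
-/

set_option autoImplicit false

open Finset Polynomial

namespace Pool.Agent.H202.EF

variable {n : ℕ}

lemma roots_eq {P : ℝ[X]} (hP : P.Monic) (hdeg : P.natDegree = n) {r : Fin n → ℝ}
    (hr : Function.Injective r) (hroot : ∀ k, P.eval (r k) = 0) :
    P.roots = (Finset.univ : Finset (Fin n)).val.map r := by
  classical
  have h1 : ((Finset.univ : Finset (Fin n)).val.map r).Nodup :=
    Multiset.Nodup.map hr Finset.univ.nodup
  have h2 : (Finset.univ : Finset (Fin n)).val.map r ≤ P.roots := by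
    rw [Multiset.le_iff_subset h1]
    intro x hx
    obtain ⟨k, -, rfl⟩ := Multiset.mem_map.1 hx
    rw [Polynomial.mem_roots hP.ne_zero]
    exact hroot k
  symm
  refine Multiset.eq_of_le_of_card_le h2 ?_
  rw [Multiset.card_map]
  refine (Polynomial.card_roots' P).trans ?_
  rw [hdeg]
  simp

/-- irreducible polynomials from their real roots -/
theorem irreducible_of_roots (hn : 0 < n) {p : ℤ[X]} (hp : p.Monic) (hdeg : p.natDegree = n)
    {r : Fin n → ℝ} (hr : Function.Injective r)
    (hroot : ∀ k, (p.map (Int.castRingHom ℝ)).eval (r k) = 0) (hc : IsUnit (p.coeff 0))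
    (hI : ∀ I : Finset (Fin n), I.Nonempty → I ≠ Finset.univ → |∏ k ∈ I, r k| ≠ 1) :
    Irreducible p ∧ ∀ z : ℂ, aeval z p = 0 → ∃ k, z = ((r k : ℝ) : ℂ) := by
  classical
  set P : ℝ[X] := p.map (Int.castRingHom ℝ) with hPdef
  have hP : P.Monic := hp.map _
  have hPdeg : P.natDegree = n := by rw [hPdef, hp.natDegree_map, hdeg]
  have hroots := roots_eq hP hPdeg hr hroot
  have hsplit : P.Splits := by
    rw [Polynomial.splits_iff_card_roots, hroots, Multiset.card_map, hPdeg]
    simp
  constructor
  · rw [hp.irreducible_iff_natDegree]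
    refine ⟨fun h => ?_, fun f g hf hg hfg => ?_⟩
    · rw [h, Polynomial.natDegree_one] at hdeg
      omega
    · set f' : ℝ[X] := f.map (Int.castRingHom ℝ) with hf'
      have hf'm : f'.Monic := hf.map _
      have hdvd : f' ∣ P := by
        refine ⟨g.map (Int.castRingHom ℝ), ?_⟩
        rw [hf', hPdef, ← hfg, Polynomial.map_mul]
      have hfs : f'.Splits := hsplit.of_dvd hP.ne_zero hdvd
      have hle : f'.roots ≤ (Finset.univ : Finset (Fin n)).val.map r := by
        rw [← hroots]
        exact Polynomial.roots.le_of_dvd hP.ne_zero hdvd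
      have hnod : f'.roots.Nodup :=
        Multiset.nodup_of_le hle (Multiset.Nodup.map hr Finset.univ.nodup)
      set I : Finset (Fin n) := Finset.univ.filter (fun k => r k ∈ f'.roots) with hIdef
      have hfI : f'.roots = I.val.map r := by
        refine (Multiset.Nodup.ext hnod (Multiset.Nodup.map hr I.nodup)).2 fun x => ?_
        constructor
        · intro hx
          obtain ⟨k, -, rfl⟩ := Multiset.mem_map.1 (Multiset.mem_of_le hle hx)
          exact Multiset.mem_map.2 ⟨k, Finset.mem_filter.2 ⟨Finset.mem_univ k, hx⟩, rfl⟩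
        · intro hx
          obtain ⟨k, hk, rfl⟩ := Multiset.mem_map.1 hx
          exact (Finset.mem_filter.1 (Finset.mem_def.2 hk)).2
      have hcard : f.natDegree = I.card := by
        have h1 := Polynomial.splits_iff_card_roots.1 hfs
        rw [hfI, Multiset.card_map, hf', hf.natDegree_map] at h1
        exact h1.symm
      have hprod : |∏ k ∈ I, r k| = 1 := by
        have h1 := hfs.coeff_zero_eq_prod_roots_of_monic hf'm
        rw [hfI] at h1
        have h2 : f'.coeff 0 = ((f.coeff 0 : ℤ) : ℝ) := by
          rw [hf', Polynomial.coeff_map]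
          rfl
        have h3 : IsUnit (f.coeff 0) := by
          have h4 : p.coeff 0 = f.coeff 0 * g.coeff 0 := by
            rw [← hfg, Polynomial.mul_coeff_zero]
          rw [h4] at hc
          exact isUnit_of_mul_isUnit_left hc
        have h5 : |f'.coeff 0| = 1 := by
          rw [h2, ← Int.cast_abs, Int.isUnit_iff_abs_eq.1 h3, Int.cast_one]
        rw [h1, abs_mul, abs_pow, abs_neg, abs_one, one_pow, one_mul] at h5
        exact h5
      by_cases hIe : I.Nonempty
      · by_cases hIu : I = Finset.univ
        · right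
          have h1 : f.natDegree + g.natDegree = n := by
            rw [← hdeg, ← hfg, hf.natDegree_mul hg]
          rw [hcard, hIu, Finset.card_univ, Fintype.card_fin] at h1
          omega
        · exact absurd hprod (hI I hIe hIu)
      · left
        rw [Finset.not_nonempty_iff_eq_empty] at hIe
        rw [hcard, hIe, Finset.card_empty]
  · intro z hz
    have h1 := hsplit.eq_prod_roots_of_monic hP
    rw [hroots, Multiset.map_map] at h1
    have h2 : (P.map (algebraMap ℝ ℂ)).eval z = 0 := by
      have e1 : (algebraMap ℝ ℂ).comp (Int.castRingHom ℝ) = algebraMap ℤ ℂ :=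
        RingHom.ext_int _ _
      rw [hPdef, Polynomial.map_map, Polynomial.eval_map, e1]
      exact hz
    rw [h1] at h2
    have h3 : ∏ k : Fin n, (z - ((r k : ℝ) : ℂ)) = 0 := by
      have h4 : ((Multiset.map ((fun a => X - C a) ∘ r) (Finset.univ : Finset (Fin n)).val).prod
          : ℝ[X]) = ∏ k : Fin n, (X - C (r k)) := rfl
      rw [h4, Polynomial.map_prod, Polynomial.eval_prod] at h2
      rw [← h2]
      refine Finset.prod_congr rfl fun k _ => ?_
      simp
    obtain ⟨k, -, hk⟩ := Finset.prod_eq_zero_iff.1 h3
    exact ⟨k, sub_eq_zero.1 hk⟩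

end Pool.Agent.H202.EF
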