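import Mathlib
import Pool.Agent.H202.ZR.Gener
import Pool.Agent.H202.EF.Seq
import Pool.Agent.H202.EF.Split

/-!
# Near returns in generic directions are irreducible RS-matrices
-/

set_option autoImplicit false

open Matrix Finset Filter Topology

namespace Pool.Agent.H202.EF

variable {n : ℕ}

lemma same_sign {φ : ℝ → ℝ} (hφ : Continuous φ) (h : ∀ s ∈ Set.Icc (0 : ℝ) 1, φ s ≠ 0) :
    0 < φ 0 * φ 1 := by
  by_contra hcon
  push Not at hcon
  have h0 := h 0 ⟨le_rfl, zero_le_one⟩
  have h1 := h 1 ⟨zero_le_one, le_rfl⟩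
  rcases lt_or_gt_of_ne h0 with h2 | h2
  · have h3 : 0 ≤ φ 1 := by
      by_contra h4
      push Not at h4
      nlinarith
    obtain ⟨s, hs, hs2⟩ := intermediate_value_Icc (zero_le_one (α := ℝ)) hφ.continuousOn
      ⟨h2.le, h3⟩
    exact h s hs hs2
  · have h3 : φ 1 ≤ 0 := by
      by_contra h4
      push Not at h4
      nlinarith
    obtain ⟨s, hs, hs2⟩ := intermediate_value_Icc' (zero_le_one (α := ℝ)) hφ.continuousOn
      ⟨h3, h2.le⟩
    exact h s hs hs2

/-- the sign of the characteristic polynomial -/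
lemma sign_det {D : Fin n → ℝ} (hD : ∀ i, 0 < D i) {E : Matrix (Fin n) (Fin n) ℝ}
    (hE : ∀ i j, |E i j| ≤ 1 / (8 * (n + 1))) {t : ℝ}
    (ht : ∀ k, t ≤ D k / 2 ∨ 2 * D k ≤ t) :
    0 < (∏ k, (t - D k)) * (t • (1 : Matrix (Fin n) (Fin n) ℝ) - diagonal D * (1 + E)).det := by
  classical
  set φ : ℝ → ℝ := fun s =>
    (t • (1 : Matrix (Fin n) (Fin n) ℝ) - diagonal D * (1 + s • E)).det with hφ
  have hφc : Continuous φ := by
    refine Continuous.matrix_det ?_
    exact continuous_const.sub (continuous_const.matrix_mul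
      (continuous_const.add (continuous_id.smul continuous_const)))
  have h0 : φ 0 = ∏ k, (t - D k) := by
    simp only [hφ]
    rw [zero_smul, add_zero, Matrix.mul_one, Matrix.smul_one_eq_diagonal,
      Matrix.diagonal_sub, Matrix.det_diagonal]
  have h1 : φ 1 = (t • (1 : Matrix (Fin n) (Fin n) ℝ) - diagonal D * (1 + E)).det := by
    simp only [hφ]
    rw [one_smul]
  rw [← h0, ← h1]
  refine same_sign hφc fun s hs => ?_
  simp only [hφ]
  refine det_ne_zero_of_sum_row_lt_diag fun k => ?_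
  have hDk := hD k
  have hn8 : (0 : ℝ) < 8 * (n + 1) := by positivity
  have hent : ∀ j, (t • (1 : Matrix (Fin n) (Fin n) ℝ) - diagonal D * (1 + s • E)) k j =
      t * (1 : Matrix (Fin n) (Fin n) ℝ) k j -
        D k * ((1 : Matrix (Fin n) (Fin n) ℝ) k j + s * E k j) := by
    intro j
    rw [Matrix.sub_apply, Matrix.smul_apply, smul_eq_mul, Matrix.diagonal_mul, Matrix.add_apply,
      Matrix.smul_apply, smul_eq_mul]
  have hsE : ∀ j, |s * E k j| ≤ 1 / (8 * (n + 1)) := by
    intro j
    rw [abs_mul, abs_of_nonneg hs.1]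
    calc s * |E k j| ≤ 1 * |E k j| := mul_le_mul_of_nonneg_right hs.2 (abs_nonneg _)
      _ ≤ _ := by rw [one_mul]; exact hE k j
  have h5 : ∑ j ∈ Finset.univ.erase k,
      ‖(t • (1 : Matrix (Fin n) (Fin n) ℝ) - diagonal D * (1 + s • E)) k j‖ ≤ D k / 8 := by
    have h6 : ∀ j ∈ Finset.univ.erase k,
        ‖(t • (1 : Matrix (Fin n) (Fin n) ℝ) - diagonal D * (1 + s • E)) k j‖ ≤
          D k * (1 / (8 * (n + 1))) := by
      intro j hj
      have hjk := Finset.ne_of_mem_erase hj
      rw [hent, Matrix.one_apply_ne (Ne.symm hjk), mul_zero, zero_add, zero_sub,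
        Real.norm_eq_abs, abs_neg, abs_mul, abs_of_pos hDk]
      exact mul_le_mul_of_nonneg_left (hsE j) hDk.le
    refine (Finset.sum_le_sum h6).trans ?_
    rw [Finset.sum_const, nsmul_eq_mul]
    have h8 : ((Finset.univ.erase k).card : ℝ) ≤ n + 1 := by
      have h4 : (Finset.univ.erase k).card ≤ n := by
        refine (Finset.card_le_univ _).trans ?_
        rw [Fintype.card_fin]
      have h5 : ((Finset.univ.erase k).card : ℝ) ≤ n := by exact_mod_cast h4
      linarith
    calc ((Finset.univ.erase k).card : ℝ) * (D k * (1 / (8 * (n + 1)))) ≤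
          (n + 1) * (D k * (1 / (8 * (n + 1)))) :=
            mul_le_mul_of_nonneg_right h8 (by positivity)
      _ = D k / 8 := by field_simp
  refine lt_of_le_of_lt h5 ?_
  rw [hent, Matrix.one_apply_eq, mul_one, Real.norm_eq_abs]
  have hEk : |s * E k k| ≤ 1 / 8 := by
    refine (hsE k).trans ?_
    rw [div_le_div_iff₀ hn8 (by norm_num)]
    have : (0 : ℝ) ≤ n := Nat.cast_nonneg _
    linarith
  have hEk' := abs_le.1 hEk
  rcases ht k with h | h
  · rw [abs_sub_comm]
    refine lt_of_lt_of_le ?_ (le_abs_self _)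
    nlinarith
  · refine lt_of_lt_of_le ?_ (le_abs_self _)
    nlinarith

/-- the eigenvalues are real -/
lemma exists_roots {D : Fin n → ℝ} (hD : ∀ i, 0 < D i) {E : Matrix (Fin n) (Fin n) ℝ}
    (hE : ∀ i j, |E i j| ≤ 1 / (8 * (n + 1)))
    (hsep : ∀ i j, i ≠ j → 4 * D i ≤ D j ∨ 4 * D j ≤ D i) :
    ∃ r : Fin n → ℝ, (∀ k, D k / 2 < r k ∧ r k < 2 * D k) ∧ Function.Injective r ∧
      ∀ k, (r k • (1 : Matrix (Fin n) (Fin n) ℝ) - diagonal D * (1 + E)).det = 0 := by
  classical
  set φ : ℝ → ℝ := fun t =>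
    (t • (1 : Matrix (Fin n) (Fin n) ℝ) - diagonal D * (1 + E)).det with hφ
  have hφc : Continuous φ := by
    refine Continuous.matrix_det ?_
    exact (continuous_id.smul continuous_const).sub continuous_const
  have key : ∀ k, ∃ r, D k / 2 < r ∧ r < 2 * D k ∧ φ r = 0 := by
    intro k
    have hDk := hD k
    have h1 := sign_det hD hE (t := D k / 2) (fun j => by
      by_cases hj : j = k
      · subst hj
        exact Or.inl le_rfl
      · have hDj := hD j
        rcases hsep j k hj with h | h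
        · right
          linarith
        · left
          linarith)
    have h2 := sign_det hD hE (t := 2 * D k) (fun j => by
      by_cases hj : j = k
      · subst hj
        exact Or.inr le_rfl
      · have hDj := hD j
        rcases hsep j k hj with h | h
        · right
          linarith
        · left
          linarith)
    have h3 : (∏ j, (D k / 2 - D j)) * ∏ j, (2 * D k - D j) < 0 := by
      rw [← Finset.prod_mul_distrib, ← Finset.mul_prod_erase _ _ (Finset.mem_univ k)]
      refine mul_neg_of_neg_of_pos ?_ (Finset.prod_pos fun j hj => ?_)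
      · nlinarith
      · have hDj := hD j
        rcases hsep j k (Finset.ne_of_mem_erase hj) with h | h
        · exact mul_pos (by linarith) (by linarith)
        · exact mul_pos_of_neg_of_neg (by linarith) (by linarith)
    have h4 : φ (D k / 2) * φ (2 * D k) < 0 := by
      have h5 : 0 < ((∏ j, (D k / 2 - D j)) * φ (D k / 2)) *
          ((∏ j, (2 * D k - D j)) * φ (2 * D k)) := mul_pos h1 h2
      have h6 : ((∏ j, (D k / 2 - D j)) * φ (D k / 2)) *
          ((∏ j, (2 * D k - D j)) * φ (2 * D k)) =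
          ((∏ j, (D k / 2 - D j)) * ∏ j, (2 * D k - D j)) * (φ (D k / 2) * φ (2 * D k)) := by
        ring
      rw [h6] at h5
      by_contra h7
      push Not at h7
      nlinarith
    have hle : D k / 2 ≤ 2 * D k := by linarith
    have hne1 : φ (D k / 2) ≠ 0 := left_ne_zero_of_mul h4.ne
    have hne2 : φ (2 * D k) ≠ 0 := right_ne_zero_of_mul h4.ne
    obtain ⟨r, hr, hr2⟩ : ∃ r ∈ Set.Icc (D k / 2) (2 * D k), φ r = 0 := by
      rcases lt_or_gt_of_ne hne1 with h | h
      · have h5 : 0 ≤ φ (2 * D k) := by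
          by_contra h6
          push Not at h6
          nlinarith
        obtain ⟨s, hs, hs2⟩ := intermediate_value_Icc hle hφc.continuousOn ⟨h.le, h5⟩
        exact ⟨s, hs, hs2⟩
      · have h5 : φ (2 * D k) ≤ 0 := by
          by_contra h6
          push Not at h6
          nlinarith
        obtain ⟨s, hs, hs2⟩ := intermediate_value_Icc' hle hφc.continuousOn ⟨h5, h.le⟩
        exact ⟨s, hs, hs2⟩
    refine ⟨r, lt_of_le_of_ne hr.1 ?_, lt_of_le_of_ne hr.2 ?_, hr2⟩
    · rintro rfl
      exact hne1 hr2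
    · rintro rfl
      exact hne2 hr2
  choose r hr1 hr2 hr3 using key
  refine ⟨r, fun k => ⟨hr1 k, hr2 k⟩, fun i j hij => ?_, hr3⟩
  by_contra hne
  rcases hsep i j hne with h | h
  · have h1 := hr2 i
    have h2 := hr1 j
    rw [← hij] at h2
    linarith
  · have h1 := hr1 i
    have h2 := hr2 j
    rw [← hij] at h2
    linarith

/-- **Near returns in generic directions are irreducible RS-matrices.** -/
theorem rs_matrix (hn : 0 < n) {L : Matrix (Fin n) (Fin n) ℝ} (hL : L.det ≠ 0)
    {γ : Matrix (Fin n) (Fin n) ℤ} (hγ : γ.det = 1) {D : Fin n → ℝ} (hD : ∀ i, 0 < D i)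
    {E : Matrix (Fin n) (Fin n) ℝ} (hE : ∀ i j, |E i j| ≤ 1 / (8 * (n + 1)))
    (h : L * γ.map (Int.cast : ℤ → ℝ) = diagonal D * (1 + E) * L)
    (hsep : ∀ i j, i ≠ j → 4 * D i ≤ D j ∨ 4 * D j ≤ D i)
    (hI : ∀ I : Finset (Fin n), I.Nonempty → I ≠ Finset.univ →
      n * Real.log 2 < |∑ k ∈ I, Real.log (D k)|) :
    Irreducible (γ.charpoly.map (Int.castRingHom ℚ)) ∧
      ∃ r : Fin n → ℝ, (∀ k, D k / 2 < r k ∧ r k < 2 * D k) ∧ Function.Injective r ∧
        ∀ z : ℂ, Polynomial.aeval z γ.charpoly = 0 ↔ ∃ k, z = ((r k : ℝ) : ℂ) := by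
  classical
  obtain ⟨r, hr, hrinj, hr0⟩ := exists_roots hD hE hsep
  have hrpos : ∀ k, 0 < r k := fun k => (half_pos (hD k)).trans (hr k).1
  have hroot : ∀ k, (γ.charpoly.map (Int.castRingHom ℝ)).eval (r k) = 0 := by
    intro k
    have e1 : γ.charpoly.map (Int.castRingHom ℝ) = (γ.map (Int.cast : ℤ → ℝ)).charpoly :=
      (Matrix.charpoly_map γ (Int.castRingHom ℝ)).symm
    rw [e1, Matrix.eval_charpoly]
    have e2 : Matrix.scalar (Fin n) (r k) = r k • (1 : Matrix (Fin n) (Fin n) ℝ) := by
      rw [Matrix.smul_one_eq_diagonal]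
      rfl
    have h1 : L * (Matrix.scalar (Fin n) (r k) - γ.map (Int.cast : ℤ → ℝ)) =
        (r k • (1 : Matrix (Fin n) (Fin n) ℝ) - diagonal D * (1 + E)) * L := by
      rw [e2, Matrix.mul_sub, h, Matrix.sub_mul, Matrix.mul_smul, Matrix.smul_mul,
        Matrix.mul_one, Matrix.one_mul]
    have h2 := congrArg Matrix.det h1
    rw [Matrix.det_mul, Matrix.det_mul, hr0 k, zero_mul] at h2
    exact (mul_eq_zero.1 h2).resolve_left hL
  have hc : IsUnit (γ.charpoly.coeff 0) := by
    have h1 := Matrix.det_eq_sign_charpoly_coeff γ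
    rw [hγ] at h1
    refine isUnit_of_mul_isUnit_right (x := (-1) ^ Fintype.card (Fin n)) ?_
    rw [← h1]
    exact isUnit_one
  have hlog : ∀ k, |Real.log (r k) - Real.log (D k)| ≤ Real.log 2 := by
    intro k
    have hDk := hD k
    rw [abs_le]
    constructor
    · have h1 : Real.log (D k / 2) ≤ Real.log (r k) :=
        Real.log_le_log (half_pos hDk) (hr k).1.le
      rw [Real.log_div hDk.ne' (by norm_num)] at h1
      linarith
    · have h1 : Real.log (r k) ≤ Real.log (2 * D k) :=
        Real.log_le_log (hrpos k) (hr k).2.le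
      rw [Real.log_mul (by norm_num) hDk.ne'] at h1
      linarith
  obtain ⟨h1, h2⟩ := irreducible_of_roots hn (Matrix.charpoly_monic γ)
    (by rw [Matrix.charpoly_natDegree_eq_dim, Fintype.card_fin]) hrinj hroot hc
    (fun I hIn hIu hprod => by
      have h3 : 0 < ∏ k ∈ I, r k := Finset.prod_pos fun k _ => hrpos k
      rw [abs_of_pos h3] at hprod
      have h4 : ∑ k ∈ I, Real.log (r k) = 0 := by
        rw [← Real.log_prod (fun k _ => (hrpos k).ne'), hprod, Real.log_one]
      have h5 : |∑ k ∈ I, Real.log (D k)| ≤ n * Real.log 2 := by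
        have h6 : ∑ k ∈ I, Real.log (D k) = -∑ k ∈ I, (Real.log (r k) - Real.log (D k)) := by
          rw [Finset.sum_sub_distrib, h4]
          ring
        rw [h6, abs_neg]
        refine (Finset.abs_sum_le_sum_abs _ _).trans ?_
        refine (Finset.sum_le_sum fun k _ => hlog k).trans ?_
        rw [Finset.sum_const, nsmul_eq_mul]
        have h7 : ((I.card : ℕ) : ℝ) ≤ n := by
          have h8 := Finset.card_le_univ I
          rw [Fintype.card_fin] at h8
          exact_mod_cast h8
        exact mul_le_mul_of_nonneg_right h7 (Real.log_nonneg (by norm_num))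
      exact absurd (hI I hIn hIu) (not_lt.2 h5))
  refine ⟨((Matrix.charpoly_monic γ).irreducible_iff_irreducible_map_fraction_map
    (K := ℚ)).1 h1, r, hr, hrinj, fun z => ⟨h2 z, ?_⟩⟩
  rintro ⟨k, rfl⟩
  have h3 := hroot k
  rw [Polynomial.eval_map] at h3
  rw [Polynomial.aeval_def]
  have h4 := congrArg (fun x : ℝ => (x : ℂ)) h3
  simp only [Complex.ofReal_zero] at h4
  rw [← h4]
  have e1 : algebraMap ℤ ℂ = (Complex.ofRealHom).comp (Int.castRingHom ℝ) :=
    (RingHom.ext_int _ _)
  rw [e1]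
  exact (Polynomial.hom_eval₂ γ.charpoly (Int.castRingHom ℝ) Complex.ofRealHom (r k)).symm

end Pool.Agent.H202.EF
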